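import Pool.Agent.W5h21.TB.PP
import Pool.Agent.Y707.PH.Sum

/-! Products over the closed points of bounded norm. -/

set_option autoImplicit false

namespace Pool.Agent.W5h21.TB

open Filter Topology Set
open Pool.Agent.H126R3 (Qc Qc_pos Qc_rpow summ_ind summable_Q pair_unique)
open Pool.Agent.W385.CP
open Pool.Agent.Y707.PH (Few summable_tmY)

theorem finQc (T : ℝ) : {c : Nat.Primes × ℕ | (Qc c : ℝ) ≤ T}.Finite := by
  set N := ⌊T⌋₊ with hN
  have h1 : ∀ c ∈ {c : Nat.Primes × ℕ | (Qc c : ℝ) ≤ T}, ((c.1 : ℕ), c.2) ∈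
      ((Finset.range (N + 1)) ×ˢ (Finset.range (N + 1)) : Finset (ℕ × ℕ)) := by
    intro c hc
    have h2 : Qc c ≤ N := Nat.le_floor hc
    have h3 : (c.1 : ℕ) ≤ Qc c := Nat.le_self_pow (Nat.succ_ne_zero _) _
    have h4 : c.2 < Qc c := by
      have h5 : c.2 + 1 < (c.1 : ℕ) ^ (c.2 + 1) := Nat.lt_pow_self c.1.2.one_lt
      unfold Qc
      omega
    rw [Finset.mem_product, Finset.mem_range, Finset.mem_range]
    simp only
    omega
  refine Set.Finite.of_finite_image (f := fun c : Nat.Primes × ℕ => ((c.1 : ℕ), c.2))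
    (((Finset.range (N + 1)) ×ˢ (Finset.range (N + 1))).finite_toSet.subset ?_) ?_
  · rintro _ ⟨c, hc, rfl⟩
    exact h1 c hc
  · rintro ⟨p, k⟩ _ ⟨p', k'⟩ _ h
    rw [Prod.mk.injEq] at h
    exact Prod.ext (Subtype.ext h.1) h.2

section
variable {B : Type} [CommRing B] [FinRes B]
variable (n₀ C₀ : ℕ) [hB : HomBd B n₀ C₀]

include hB in
theorem finZ (T : ℝ) : {z : MaximalSpectrum B × ℕ | (Qc (kp z) : ℝ) ≤ T}.Finite := by
  have h1 : {z : MaximalSpectrum B × ℕ | (Qc (kp z) : ℝ) ≤ T} =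
      kp ⁻¹' {c : Nat.Primes × ℕ | (Qc c : ℝ) ≤ T} := rfl
  rw [h1]
  refine (finQc T).preimage' fun c _ => ?_
  have h2 : Finite (Ph B c) := finPh n₀ C₀ c
  exact Set.finite_coe_iff.1 h2

include hB in
theorem finY (T : ℝ) : {y : MaximalSpectrum B | ((qn y : ℕ) : ℝ) ≤ T}.Finite := by
  refine ((finZ (B := B) n₀ C₀ T).image Prod.fst).subset fun y hy => ?_
  refine ⟨(y, 0), ?_, rfl⟩
  change ((Qc (kp (y, 0)) : ℕ) : ℝ) ≤ T
  rw [Qc_kp]
  simpa using hy

end

section
variable {B : Type} [CommRing B] [FinRes B]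
variable (n₀ C₀ : ℕ) [hB : HomBd B n₀ C₀] {Y : Set (MaximalSpectrum B)} {n : ℕ} {C1 : ℝ}
variable {tr : MaximalSpectrum B → ℕ → ℂ} {w Ct : ℝ} (hCt : 0 ≤ Ct)
  (htr : ∀ y m, ‖tr y (m + 1)‖ ≤ Ct * (((qn y : ℕ) : ℝ) ^ (m + 1)) ^ w)
  (h0 : ∀ y, y ∉ Y → ∀ m, tr y (m + 1) = 0) (hY : Few Y n C1)

include hB hCt htr h0 hY in
/-- the higher powers -/
theorem summ_sq (s : ℂ) (hs : (n : ℝ) + 1 + 2 * w < 2 * s.re) (hw : w < s.re) :
    Summable fun z : MaximalSpectrum B × ℕ => if z.2 = 0 then 0 else ‖tm tr s z‖ := by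
  classical
  set d : ℝ := s.re - w with hd
  have hd0 : 0 < d := by linarith
  set tr1 : MaximalSpectrum B → ℕ → ℂ := fun y _ => if y ∈ Y then 1 else 0 with htr1
  have h1 := summable_tmY n₀ C₀ (Y := Y) (n := n) (C1 := C1) (tr := tr1) (w := 0) (Ct := 1)
    zero_le_one (fun y m => by
      rw [Real.rpow_zero, one_mul]
      simp only [htr1]
      split_ifs
      · rw [norm_one]
      · rw [norm_zero]
        exact zero_le_one) (fun y hy m => by
      simp only [htr1]
      rw [if_neg hy]) hY ((2 * d : ℝ) : ℂ) (by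
      rw [Complex.ofReal_re]
      linarith)
  have h2 : Summable fun y : MaximalSpectrum B => ‖tm tr1 ((2 * d : ℝ) : ℂ) (y, 0)‖ :=
    h1.norm.comp_injective (i := fun y : MaximalSpectrum B => (y, 0)) fun a b h =>
      (Prod.mk.inj h).1
  have h3 : ∀ y, ‖tm tr1 ((2 * d : ℝ) : ℂ) (y, 0)‖ =
      if y ∈ Y then ((qn y : ℕ) : ℝ) ^ (-(2 * d)) else 0 := by
    intro y
    unfold tm
    simp only [htr1]
    split_ifs
    · rw [norm_div, norm_mul, norm_one, one_mul, Complex.norm_natCast_cpow_of_pos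
        (by have := two_le_qn y; omega)]
      simp
    · rw [zero_mul, zero_div, norm_zero]
  simp only [h3] at h2
  have h2d : (2 : ℝ) ^ (-d) < 1 := Real.rpow_lt_one_of_one_lt_of_neg (by norm_num) (by linarith)
  have h4 : Summable fun m : ℕ => if m = 0 then 0 else ((2 : ℝ) ^ (-d)) ^ (m - 1) := by
    rw [← summable_nat_add_iff 1]
    refine (summable_geometric_of_lt_one (by positivity) h2d).congr fun m => ?_
    rw [if_neg (Nat.succ_ne_zero m), Nat.add_sub_cancel]
  have h5 := ((h2.mul_left Ct).mul_of_nonneg h4 (fun y => by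
    simp only
    split_ifs
    · positivity
    · simp) (fun m => by
    simp only
    split_ifs
    · exact le_rfl
    · positivity))
  refine Summable.of_nonneg_of_le (fun z => ?_) (fun z => ?_) h5
  · split_ifs
    · exact le_rfl
    · exact norm_nonneg _
  · obtain ⟨y, m⟩ := z
    simp only
    rcases m with _ | m
    · rw [if_pos rfl, if_pos rfl, mul_zero]
    · rw [if_neg (Nat.succ_ne_zero m), if_neg (Nat.succ_ne_zero m), Nat.add_sub_cancel]
      by_cases hy : y ∈ Y
      · rw [if_pos hy]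
        have h6 := norm_tm htr s (y, m + 1)
        refine h6.trans ?_
        rw [mul_assoc]
        refine mul_le_mul_of_nonneg_left ?_ hCt
        rw [Qc_kp]
        have hq : (2 : ℝ) ≤ ((qn y : ℕ) : ℝ) := by exact_mod_cast two_le_qn y
        have hq0 : (0 : ℝ) < ((qn y : ℕ) : ℝ) := by linarith
        have e1 : (((qn y ^ (m + 1 + 1) : ℕ)) : ℝ) ^ (w - s.re) =
            ((qn y : ℕ) : ℝ) ^ (-(2 * d)) * (((qn y : ℕ) : ℝ) ^ (-d)) ^ m := by
          rw [Nat.cast_pow, ← Real.rpow_natCast, ← Real.rpow_natCast, ← Real.rpow_mul hq0.le,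
            ← Real.rpow_mul hq0.le, ← Real.rpow_add hq0]
          congr 1
          push_cast
          rw [hd]
          ring
        simp only
        rw [e1]
        refine mul_le_mul_of_nonneg_left ?_ (by positivity)
        refine pow_le_pow_left₀ (by positivity) ?_ m
        exact Real.rpow_le_rpow_of_nonpos (by norm_num) hq (by linarith)
      · rw [if_neg hy, mul_zero, zero_mul]
        unfold tm
        rw [h0 y hy, zero_mul, zero_div, norm_zero]

include hB in
/-- the partial sums over the powers of the closed points -/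
theorem PS_eq (s : ℂ) {T : ℝ} (hT : 0 < T) :
    HasSum (fun z : MaximalSpectrum B × ℕ => if (Qc (kp z) : ℝ) ≤ T then tm tr s z else 0)
      (PS (wA (Ac tr) s) tQ (Real.log T)) := by
  classical
  have hfin : ∀ c, Finite {z : MaximalSpectrum B × ℕ // kp z = c} := fun c =>
    finPh n₀ C₀ c
  have h1 : HasSum (fun z : MaximalSpectrum B × ℕ => if (Qc (kp z) : ℝ) ≤ T then tm tr s z else 0)
      (∑' z : MaximalSpectrum B × ℕ, if (Qc (kp z) : ℝ) ≤ T then tm tr s z else 0) := by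
    refine (summable_of_ne_finset_zero (s := (finZ (B := B) n₀ C₀ T).toFinset) fun z hz => ?_).hasSum
    rw [Set.Finite.mem_toFinset] at hz
    exact if_neg hz
  have h2 := h1
  rw [← (Equiv.sigmaFiberEquiv (kp (B := B))).hasSum_iff] at h2
  have h3 := h2.sigma (g := fun c => if tQ c ≤ Real.log T then wA (Ac tr) s c else 0) fun c => by
    haveI := hfin c
    let _ := Fintype.ofFinite {z : MaximalSpectrum B × ℕ // kp z = c}
    have hQ : (0 : ℝ) < Qc c := Qc_pos' c
    have hiff : tQ c ≤ Real.log T ↔ (Qc c : ℝ) ≤ T := Real.log_le_log_iff hQ hT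
    have h2 : (if tQ c ≤ Real.log T then wA (Ac tr) s c else 0) =
        ∑ z : {z : MaximalSpectrum B × ℕ // kp z = c},
        ((fun z : MaximalSpectrum B × ℕ => if (Qc (kp z) : ℝ) ≤ T then tm tr s z else 0) ∘
          (Equiv.sigmaFiberEquiv (kp (B := B)))) ⟨c, z⟩ := by
      have h4 : ∀ z : {z : MaximalSpectrum B × ℕ // kp z = c},
          ((fun z : MaximalSpectrum B × ℕ => if (Qc (kp z) : ℝ) ≤ T then tm tr s z else 0) ∘
          (Equiv.sigmaFiberEquiv (kp (B := B)))) ⟨c, z⟩ =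
          if (Qc c : ℝ) ≤ T then tm tr s z.1 else 0 := by
        intro z
        change (if (Qc (kp z.1) : ℝ) ≤ T then tm tr s z.1 else 0) = _
        rw [z.2]
      simp only [h4]
      by_cases h5 : (Qc c : ℝ) ≤ T
      · rw [if_pos (hiff.2 h5)]
        simp only [if_pos h5]
        unfold wA Ac
        rw [finsum_eq_sum_of_fintype, Finset.sum_mul]
        refine Finset.sum_congr rfl fun z _ => ?_
        rw [tm_eq, z.2]
      · rw [if_neg fun h => h5 (hiff.1 h)]
        simp only [if_neg h5, Finset.sum_const_zero]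
    rw [h2]
    exact hasSum_fintype _
  have h4 : PS (wA (Ac tr) s) tQ (Real.log T) =
      ∑' z : MaximalSpectrum B × ℕ, if (Qc (kp z) : ℝ) ≤ T then tm tr s z else 0 := h3.tsum_eq
  rw [h4]
  exact h1

include hB hCt htr h0 hY in
/-- the sums over the closed points of bounded norm -/
theorem closed (s : ℂ) (hs : (n : ℝ) + 1 + 2 * w < 2 * s.re) (hw : w < s.re) :
    (∀ T : ℝ, 0 < T → Summable fun z : MaximalSpectrum B × ℕ =>
      if ((qn z.1 : ℕ) : ℝ) ≤ T then tm tr s z else 0) ∧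
    Tendsto (fun T : ℝ => (∑' z : MaximalSpectrum B × ℕ,
      if ((qn z.1 : ℕ) : ℝ) ≤ T then tm tr s z else 0) - PS (wA (Ac tr) s) tQ (Real.log T)) atTop
      (𝓝 0) := by
  classical
  have h1 := summ_sq n₀ C₀ hCt htr h0 hY s hs hw
  set g : ℝ → MaximalSpectrum B × ℕ → ℂ := fun T z =>
    if ((qn z.1 : ℕ) : ℝ) ≤ T ∧ T < (Qc (kp z) : ℝ) then tm tr s z else 0 with hg
  have hz : ∀ z : MaximalSpectrum B × ℕ, z.2 = 0 → Qc (kp z) = qn z.1 := by
    intro z hz
    rw [Qc_kp, hz, zero_add, pow_one]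
  have hle : ∀ z : MaximalSpectrum B × ℕ, qn z.1 ≤ Qc (kp z) := by
    intro z
    rw [Qc_kp]
    exact Nat.le_self_pow (Nat.succ_ne_zero _) _
  have hgb : ∀ T z, ‖g T z‖ ≤ if z.2 = 0 then 0 else ‖tm tr s z‖ := by
    intro T z
    simp only [hg]
    by_cases h2 : z.2 = 0
    · rw [if_pos h2, if_neg, norm_zero]
      rintro ⟨h3, h4⟩
      rw [hz z h2] at h4
      exact absurd h4 (not_lt.2 h3)
    · rw [if_neg h2]
      split_ifs
      · exact le_rfl
      · rw [norm_zero]
        exact norm_nonneg _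
  have hgs : ∀ T, Summable (g T) := fun T => Summable.of_norm_bounded h1 (hgb T)
  have e : ∀ T, (fun z : MaximalSpectrum B × ℕ =>
      if ((qn z.1 : ℕ) : ℝ) ≤ T then tm tr s z else 0) = fun z =>
      (if (Qc (kp z) : ℝ) ≤ T then tm tr s z else 0) + g T z := by
    intro T
    funext z
    simp only [hg]
    by_cases h2 : (Qc (kp z) : ℝ) ≤ T
    · have h3 : ((qn z.1 : ℕ) : ℝ) ≤ T := le_trans (by exact_mod_cast hle z) h2
      rw [if_pos h2, if_pos h3, if_neg fun h => absurd h.2 (not_lt.2 h2), add_zero]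
    · rw [if_neg h2, zero_add]
      by_cases h3 : ((qn z.1 : ℕ) : ℝ) ≤ T
      · rw [if_pos h3, if_pos ⟨h3, not_le.1 h2⟩]
      · rw [if_neg h3, if_neg fun h => h3 h.1]
  refine ⟨fun T hT => ?_, ?_⟩
  · rw [e T]
    exact (PS_eq n₀ C₀ s hT).summable.add (hgs T)
  · have h2 : Tendsto (fun T : ℝ => ∑' z, g T z) atTop
        (𝓝 (∑' z, (fun _ : MaximalSpectrum B × ℕ => (0 : ℂ)) z)) := by
      refine tendsto_tsum_of_dominated_convergence h1 (fun z => ?_) (Eventually.of_forall hgb)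
      refine tendsto_const_nhds.congr' ?_
      filter_upwards [eventually_ge_atTop (Qc (kp z) : ℝ)] with T hT
      simp only [hg]
      rw [if_neg fun h => absurd h.2 (not_lt.2 hT)]
    rw [tsum_zero] at h2
    refine h2.congr' ?_
    filter_upwards [eventually_gt_atTop 0] with T hT
    have h3 := (PS_eq (tr := tr) n₀ C₀ s hT)
    rw [e T, (h3.summable.tsum_add (hgs T)), h3.tsum_eq]
    ring

include hB hCt htr h0 hY in
/-- the products over the closed points of bounded norm -/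
theorem closed_prod (s : ℂ) (hs : (n : ℝ) + 1 + 2 * w < 2 * s.re) (hw : w < s.re) {T : ℝ}
    (hT : 0 < T) :
    ∏ᶠ (y : MaximalSpectrum B) (_ : ((qn y : ℕ) : ℝ) ≤ T), Complex.exp (∑' m : ℕ, tm tr s (y, m)) =
      Complex.exp (∑' z : MaximalSpectrum B × ℕ,
        if ((qn z.1 : ℕ) : ℝ) ≤ T then tm tr s z else 0) := by
  classical
  have h1 := (closed n₀ C₀ hCt htr h0 hY s hs hw).1 T hT
  have hfin := finY (B := B) n₀ C₀ T
  rw [h1.tsum_prod]
  have h2 : ∀ y : MaximalSpectrum B, (∑' m : ℕ, if ((qn y : ℕ) : ℝ) ≤ T then tm tr s (y, m) else 0) =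
      if ((qn y : ℕ) : ℝ) ≤ T then ∑' m : ℕ, tm tr s (y, m) else 0 := by
    intro y
    split_ifs
    · rfl
    · exact tsum_zero
  simp only [h2]
  rw [tsum_eq_sum (s := hfin.toFinset) fun y hy => by
    rw [Set.Finite.mem_toFinset] at hy
    exact if_neg hy, Complex.exp_sum]
  have h3 : ∏ᶠ (y : MaximalSpectrum B) (_ : ((qn y : ℕ) : ℝ) ≤ T),
      Complex.exp (∑' m : ℕ, tm tr s (y, m)) =
      ∏ y ∈ hfin.toFinset, Complex.exp (∑' m : ℕ, tm tr s (y, m)) :=
    finprod_mem_eq_finite_toFinset_prod _ hfin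
  rw [h3]
  refine Finset.prod_congr rfl fun y hy => ?_
  rw [Set.Finite.mem_toFinset] at hy
  have hy' : ((qn y : ℕ) : ℝ) ≤ T := hy
  rw [if_pos hy']

end

end Pool.Agent.W5h21.TB
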