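import Pool.Agent.W5h21.TB.Gam

/-! Partial sums and Dirichlet series at the edge of convergence. -/

set_option autoImplicit false

namespace Pool.Agent.W5h21.TB

open Filter Topology MeasureTheory Set

section
variable {ι : Type} [Countable ι] (w : ι → ℂ) (τ : ι → ℝ)

open Classical in
/-- the partial sums -/
noncomputable def PS (t : ℝ) : ℂ := ∑' i, if τ i ≤ t then w i else 0

/-- the series -/
noncomputable def DS (ε : ℝ) : ℂ := ∑' i, w i * (Real.exp (-(ε * τ i)) : ℂ)

variable {w τ}

theorem summ_le (hs : ∀ ε : ℝ, 0 < ε → Summable fun i => ‖w i‖ * Real.exp (-(ε * τ i))) (a : ℝ) :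
    Summable fun i => if τ i ≤ a then ‖w i‖ else 0 := by
  classical
  have h1 := (hs 1 one_pos).mul_left (Real.exp a)
  refine Summable.of_nonneg_of_le (fun i => ?_) (fun i => ?_) h1
  · split_ifs
    · exact norm_nonneg _
    · exact le_rfl
  · split_ifs with h
    · have h2 : 1 ≤ Real.exp a * Real.exp (-(1 * τ i)) := by
        rw [← Real.exp_add]
        exact Real.one_le_exp (by linarith)
      calc ‖w i‖ = 1 * ‖w i‖ := (one_mul _).symm
        _ ≤ (Real.exp a * Real.exp (-(1 * τ i))) * ‖w i‖ :=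
          mul_le_mul_of_nonneg_right h2 (norm_nonneg _)
        _ = _ := by ring
    · positivity

theorem summ_ps (hs : ∀ ε : ℝ, 0 < ε → Summable fun i => ‖w i‖ * Real.exp (-(ε * τ i))) (a : ℝ) :
    Summable fun i => if τ i ≤ a then w i else 0 := by
  classical
  refine Summable.of_norm ((summ_le hs a).congr fun i => ?_)
  split_ifs
  · rfl
  · rw [norm_zero]

theorem PS_meas (hs : ∀ ε : ℝ, 0 < ε → Summable fun i => ‖w i‖ * Real.exp (-(ε * τ i))) :
    Measurable (PS w τ) := by
  classical
  refine measurable_of_tendsto_metrizable' (atTop : Filter (Finset ι))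
    (f := fun S t => ∑ i ∈ S, if τ i ≤ t then w i else 0) (fun S => ?_) ?_
  · refine Finset.measurable_sum _ fun i _ => ?_
    exact Measurable.ite measurableSet_Ici measurable_const measurable_const
  · rw [tendsto_pi_nhds]
    intro t
    exact (summ_ps hs t).hasSum

theorem PS_loc (hs : ∀ ε : ℝ, 0 < ε → Summable fun i => ‖w i‖ * Real.exp (-(ε * τ i))) (a : ℝ) :
    ∃ B : ℝ, ∀ t, 0 < t → t ≤ a → ‖PS w τ t‖ ≤ B := by
  classical
  refine ⟨∑' i, if τ i ≤ a then ‖w i‖ else 0, fun t _ ht => ?_⟩
  unfold PS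
  refine tsum_of_norm_bounded (summ_le hs a).hasSum fun i => ?_
  by_cases h : τ i ≤ t
  · rw [if_pos h, if_pos (h.trans ht)]
  · rw [if_neg h, norm_zero]
    split_ifs
    · exact norm_nonneg _
    · exact le_rfl

/-- the Laplace means of the partial sums -/
theorem LM_PS (hs : ∀ ε : ℝ, 0 < ε → Summable fun i => ‖w i‖ * Real.exp (-(ε * τ i)))
    (hτ : ∀ i, 0 ≤ τ i) {t : ℝ} (ht : 0 < t) : LM (PS w τ) t = DS w τ t⁻¹ := by
  classical
  have hset : ∀ i, {x : ℝ | τ i ≤ x * t} = Ici (τ i / t) := by
    intro i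
    ext x
    rw [mem_Ici, div_le_iff₀ ht]
    rfl
  have e1 : ∀ i, (fun x : ℝ => (if τ i ≤ x * t then w i else 0) * (Real.exp (-x) : ℂ)) =
      (Ici (τ i / t)).indicator fun x => w i * (Real.exp (-x) : ℂ) := by
    intro i
    funext x
    rw [indicator_apply]
    by_cases h : τ i ≤ x * t
    · rw [if_pos h, if_pos (by rw [← hset]; exact h)]
    · rw [if_neg h, if_neg (by rw [← hset]; exact h), zero_mul]
  have hsub : ∀ i, Ioi (τ i / t) ⊆ Ioi (0 : ℝ) := fun i =>
    Ioi_subset_Ioi (div_nonneg (hτ i) ht.le)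
  have hae : ∀ i, ((Ioi (0 : ℝ) ∩ Ici (τ i / t) : Set ℝ)) =ᵐ[volume] (Ioi (τ i / t) : Set ℝ) := by
    intro i
    have h1 : ((Ioi (0 : ℝ) ∩ Ici (τ i / t) : Set ℝ)) =ᵐ[volume]
        ((Ioi (0 : ℝ) ∩ Ioi (τ i / t) : Set ℝ)) :=
      (ae_eq_refl _).inter Ioi_ae_eq_Ici.symm
    rwa [inter_eq_right.2 (hsub i)] at h1
  have hint : ∀ i, Integrable (fun x : ℝ => (if τ i ≤ x * t then w i else 0) *
      (Real.exp (-x) : ℂ)) (volume.restrict (Ioi 0)) := by
    intro i
    rw [e1]
    exact (intble_exp.const_mul (w i)).indicator measurableSet_Ici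
  have hval : ∀ i, ∫ x in Ioi (0 : ℝ), (if τ i ≤ x * t then w i else 0) * (Real.exp (-x) : ℂ) =
      w i * (Real.exp (-(t⁻¹ * τ i)) : ℂ) := by
    intro i
    rw [e1, setIntegral_indicator measurableSet_Ici, setIntegral_congr_set (hae i),
      integral_const_mul, integral_complex_ofReal, integral_exp_neg_Ioi]
    congr 3
    ring
  have hnorm : ∀ i, ∫ x in Ioi (0 : ℝ), ‖(if τ i ≤ x * t then w i else 0) *
      (Real.exp (-x) : ℂ)‖ = ‖w i‖ * Real.exp (-(t⁻¹ * τ i)) := by
    intro i
    have e2 : (fun x : ℝ => ‖(if τ i ≤ x * t then w i else 0) * (Real.exp (-x) : ℂ)‖) =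
      (Ici (τ i / t)).indicator fun x => ‖w i‖ * Real.exp (-x) := by
      funext x
      rw [congrFun (e1 i) x, indicator_apply, indicator_apply]
      split_ifs
      · rw [norm_mul, Complex.norm_real, Real.norm_eq_abs, Real.abs_exp]
      · rw [norm_zero]
    rw [e2, setIntegral_indicator measurableSet_Ici, setIntegral_congr_set (hae i),
      integral_const_mul, integral_exp_neg_Ioi]
    congr 2
    ring
  have h1 := integral_tsum_of_summable_integral_norm hint (by
    simp only [hnorm]
    exact hs t⁻¹ (by positivity))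
  simp only [hval] at h1
  unfold LM DS PS
  rw [h1]
  refine integral_congr_ae (Eventually.of_forall fun x => ?_)
  simp only
  rw [← tsum_mul_right]

/-- **Partial sums and the radial limit.** -/
theorem core (hs : ∀ ε : ℝ, 0 < ε → Summable fun i => ‖w i‖ * Real.exp (-(ε * τ i)))
    (hτ : ∀ i, 0 ≤ τ i) (hslow : Slow (PS w τ)) (ρ S : ℂ) :
    Tendsto (fun t : ℝ => PS w τ t - ρ * (Real.log t : ℂ)) atTop (𝓝 S) ↔
      Tendsto (fun t : ℝ => DS w τ t⁻¹ - ρ * (Real.log t : ℂ)) atTop
        (𝓝 (S - ρ * (Real.eulerMascheroniConstant : ℂ))) := by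
  set g : ℝ → ℂ := fun t => PS w τ t - ρ * (lp t : ℂ) with hg
  have hm : Measurable g := by
    have h1 := PS_meas hs
    have h2 := lp_meas
    fun_prop
  have hlp : ∀ a : ℝ, ∀ t, 0 < t → t ≤ a → |lp t| ≤ lp a := by
    intro a t h0 h1
    rw [abs_of_nonneg (lp_nonneg _)]
    exact lp_mono h0 h1
  have hloc : ∀ a : ℝ, ∃ B : ℝ, ∀ t, 0 < t → t ≤ a → ‖g t‖ ≤ B := by
    intro a
    obtain ⟨B, hB⟩ := PS_loc hs a
    refine ⟨B + ‖ρ‖ * lp a, fun t h0 h1 => ?_⟩
    refine (norm_sub_le _ _).trans (add_le_add (hB t h0 h1) ?_)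
    rw [norm_mul, Complex.norm_real, Real.norm_eq_abs]
    exact mul_le_mul_of_nonneg_left (hlp a t h0 h1) (norm_nonneg _)
  have hgs : Slow g := by
    intro η hη
    obtain ⟨l, hl, t0, ht0, h⟩ := hslow (η / 2) (half_pos hη)
    set c : ℝ := η / (2 * (‖ρ‖ + 1)) with hc
    have hρ : 0 < ‖ρ‖ + 1 := by positivity
    have hc0 : 0 < c := by positivity
    refine ⟨min l (Real.exp c), lt_min hl (by
      have := Real.add_one_lt_exp hc0.ne'
      linarith), max t0 1, lt_of_lt_of_le ht0 (le_max_left _ _), fun t s h1 h2 h3 => ?_⟩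
    have ht1 : 1 ≤ t := (le_max_right _ _).trans h1
    have ht00 : 0 < t := by linarith
    have hs0 : 0 < s := by linarith
    have h4 := h t s ((le_max_left _ _).trans h1) h2 (h3.trans
      (mul_le_mul_of_nonneg_right (min_le_left _ _) ht00.le))
    have h5 := lp_slow ht1 h2
    have h6 : Real.log (s / t) ≤ c := by
      have h7 : s / t ≤ Real.exp c := by
        rw [div_le_iff₀ ht00]
        exact h3.trans (mul_le_mul_of_nonneg_right (min_le_right _ _) ht00.le)
      rw [← Real.log_exp c]
      exact Real.log_le_log (by positivity) h7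
    have e : g s - g t = (PS w τ s - PS w τ t) - ρ * ((lp s - lp t : ℝ) : ℂ) := by
      simp only [hg]
      push_cast
      ring
    rw [e]
    refine (norm_sub_le _ _).trans ?_
    rw [norm_mul, Complex.norm_real, Real.norm_eq_abs]
    have h8 : ‖ρ‖ * |lp s - lp t| ≤ η / 2 := by
      calc ‖ρ‖ * |lp s - lp t| ≤ (‖ρ‖ + 1) * c := by
            apply mul_le_mul _ (h5.trans h6) (abs_nonneg _) hρ.le
            linarith
        _ = η / 2 := by
          rw [hc]
          field_simp
    linarith
  have hgt : ∀ᶠ t in atTop, g t = PS w τ t - ρ * (Real.log t : ℂ) := by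
    filter_upwards [eventually_ge_atTop 1] with t ht
    simp only [hg]
    rw [lp_of_one_le ht]
  have hLg : ∀ᶠ t in atTop, LM g t = DS w τ t⁻¹ - ρ * LM (fun u => (lp u : ℂ)) t := by
    filter_upwards [eventually_ge_atTop 1] with t ht
    have ht0 : 0 < t := by linarith
    rw [← LM_PS hs hτ ht0]
    unfold LM
    rw [← integral_const_mul]
    have i1 : IntegrableOn (fun x : ℝ => ρ * (((lp (x * t) : ℝ) : ℂ) * (Real.exp (-x) : ℂ)))
        (Ioi 0) := by
      have h1 := ((lp_int ht).ofReal (𝕜 := ℂ)).const_mul ρ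
      refine h1.congr (Eventually.of_forall fun x => ?_)
      simp only [RCLike.ofReal_mul]
      rfl
    have i2 : IntegrableOn (fun x : ℝ => PS w τ (x * t) * (Real.exp (-x) : ℂ)) (Ioi 0) := by
      classical
      have h1 : ∀ x : ℝ, ‖PS w τ (x * t) * (Real.exp (-x) : ℂ)‖ ≤
          (∑' i, ‖w i‖ * Real.exp (-((1 / (2 * t)) * τ i))) * Real.exp (-(1 / 2 * x)) := by
        intro x
        have h2 : ‖PS w τ (x * t)‖ ≤
            ∑' i, (‖w i‖ * Real.exp (-((1 / (2 * t)) * τ i))) * Real.exp (1 / 2 * x) := by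
          unfold PS
          refine tsum_of_norm_bounded ((hs (1 / (2 * t)) (by positivity)).mul_right
            (Real.exp (1 / 2 * x))).hasSum fun i => ?_
          split_ifs with h
          · rw [mul_assoc, ← Real.exp_add]
            refine le_mul_of_one_le_right (norm_nonneg _) (Real.one_le_exp ?_)
            have h3 : 1 / (2 * t) * τ i ≤ 1 / (2 * t) * (x * t) :=
              mul_le_mul_of_nonneg_left h (by positivity)
            have h4 : 1 / (2 * t) * (x * t) = 1 / 2 * x := by
              field_simp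
            linarith
          · rw [norm_zero]
            positivity
        rw [norm_mul, Complex.norm_real, Real.norm_eq_abs, Real.abs_exp]
        rw [tsum_mul_right] at h2
        calc ‖PS w τ (x * t)‖ * Real.exp (-x) ≤
            ((∑' i, ‖w i‖ * Real.exp (-((1 / (2 * t)) * τ i))) * Real.exp (1 / 2 * x)) *
              Real.exp (-x) := mul_le_mul_of_nonneg_right h2 (Real.exp_nonneg _)
          _ = _ := by
            rw [mul_assoc, ← Real.exp_add]
            congr 2
            ring
      have h3 : IntegrableOn (fun x : ℝ => Real.exp (-(1 / 2 * x))) (Ioi 0) := by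
        have h4 := integrableOn_exp_mul_Ioi (a := -(1 / 2 : ℝ)) (by norm_num) 0
        refine h4.congr_fun (fun x _ => ?_) measurableSet_Ioi
        simp only
        congr 1
        ring
      have h5 : Measurable (fun x : ℝ => PS w τ (x * t) * (Real.exp (-x) : ℂ)) := by
        have := PS_meas hs
        fun_prop
      exact Integrable.mono' (h3.const_mul _) h5.aestronglyMeasurable
        (Eventually.of_forall h1)
    rw [← integral_sub i2 i1]
    refine integral_congr_ae (Eventually.of_forall fun x => ?_)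
    simp only [hg]
    ring
  have hDS : ∀ᶠ t in atTop, DS w τ t⁻¹ - ρ * (Real.log t : ℂ) =
      LM g t + ρ * (LM (fun u => (lp u : ℂ)) t - (Real.log t : ℂ)) := by
    filter_upwards [hLg] with t ht
    rw [ht]
    ring
  have hlim := LM_lp.const_mul ρ
  constructor
  · intro h
    have h1 : Tendsto g atTop (𝓝 S) := h.congr' (hgt.mono fun t ht => ht.symm)
    -- boundedness
    have h2 : ∃ B : ℝ, ∀ t, 0 < t → ‖g t‖ ≤ B := by
      have h3 : ∀ᶠ t in atTop, ‖g t‖ ≤ ‖S‖ + 1 := by
        have := h1.norm.eventually (gt_mem_nhds (show ‖S‖ < ‖S‖ + 1 by linarith))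
        exact this.mono fun t ht => ht.le
      obtain ⟨t1, ht1⟩ := eventually_atTop.1 h3
      obtain ⟨B, hB⟩ := hloc t1
      refine ⟨max B (‖S‖ + 1), fun t ht => ?_⟩
      rcases le_total t t1 with h4 | h4
      · exact (hB t ht h4).trans (le_max_left _ _)
      · exact (ht1 t h4).trans (le_max_right _ _)
    obtain ⟨B, hB⟩ := h2
    have h5 := (abel hm hB h1).add hlim
    refine (h5.congr' (hDS.mono fun t ht => ht.symm)).trans ?_
    rw [show S + ρ * -(Real.eulerMascheroniConstant : ℂ) =
      S - ρ * (Real.eulerMascheroniConstant : ℂ) by ring]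
  · intro h
    have h1 : Tendsto (LM g) atTop (𝓝 S) := by
      have h2 := h.sub hlim
      have h3 : S - ρ * (Real.eulerMascheroniConstant : ℂ) -
          ρ * -(Real.eulerMascheroniConstant : ℂ) = S := by ring
      rw [h3] at h2
      refine h2.congr' ?_
      filter_upwards [hDS] with t ht
      rw [ht]
      ring
    exact (tauber hm hloc hgs h1).congr' hgt

end

end Pool.Agent.W5h21.TB
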