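import Pool.Agent.W5h21.TB.Core

/-! The exponential form. -/

set_option autoImplicit false

namespace Pool.Agent.W5h21.TB

open Filter Topology MeasureTheory Set

/-- the branches of the logarithm -/
theorem branch {h : ℝ → ℂ} {c : ℂ} (hc0 : c ≠ 0)
    (hl : Tendsto (fun t => Complex.exp (h t)) atTop (𝓝 c)) :
    ∃ N : ℝ → ℤ, (∀ t, h t = Complex.log c + Complex.log (Complex.exp (h t - Complex.log c)) +
      (N t : ℂ) * (2 * Real.pi * Complex.I)) ∧
      Tendsto (fun t => Complex.exp (h t - Complex.log c)) atTop (𝓝 1) := by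
  have h1 : ∀ t, ∃ n : ℤ, h t - Complex.log c =
      Complex.log (Complex.exp (h t - Complex.log c)) + (n : ℂ) * (2 * Real.pi * Complex.I) := by
    intro t
    apply Complex.exp_eq_exp_iff_exists_int.1
    rw [Complex.exp_log (Complex.exp_ne_zero _)]
  choose N hN using h1
  refine ⟨N, fun t => ?_, ?_⟩
  · rw [add_assoc, ← hN t]
    ring
  · have h2 : ∀ t, Complex.exp (h t - Complex.log c) = Complex.exp (h t) * c⁻¹ := by
      intro t
      rw [Complex.exp_sub, Complex.exp_log hc0, div_eq_mul_inv]
    simp only [h2]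
    have h3 := hl.mul_const c⁻¹
    rwa [mul_inv_cancel₀ hc0] at h3

theorem branch_end {h : ℝ → ℂ} {c : ℂ} (hc0 : c ≠ 0)
    (hl : Tendsto (fun t => Complex.exp (h t - Complex.log c)) atTop (𝓝 1)) {N : ℝ → ℤ}
    (hN : ∀ t, h t = Complex.log c + Complex.log (Complex.exp (h t - Complex.log c)) +
      (N t : ℂ) * (2 * Real.pi * Complex.I)) {t1 : ℝ} (hc : ∀ t, t1 ≤ t → N t = N t1) :
    ∃ z, Complex.exp z = c ∧ Tendsto h atTop (𝓝 z) := by
  refine ⟨Complex.log c + (N t1 : ℂ) * (2 * Real.pi * Complex.I), ?_, ?_⟩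
  · rw [Complex.exp_add, Complex.exp_log hc0, Complex.exp_int_mul_two_pi_mul_I, mul_one]
  · have h1 : Tendsto (fun t => Complex.log (Complex.exp (h t - Complex.log c))) atTop (𝓝 0) := by
      have h2 : ContinuousAt Complex.log 1 := continuousAt_clog Complex.one_mem_slitPlane
      have h3 := h2.tendsto.comp hl
      rwa [Complex.log_one] at h3
    have h4 := (h1.const_add (Complex.log c)).add_const ((N t1 : ℂ) * (2 * Real.pi * Complex.I))
    rw [add_zero] at h4
    refine h4.congr' ?_
    filter_upwards [eventually_ge_atTop t1] with t ht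
    rw [← hc t ht]
    exact (hN t).symm

theorem lift_cont {h : ℝ → ℂ} {t1 : ℝ} (hc : ContinuousOn h (Ici t1)) {c : ℂ} (hc0 : c ≠ 0)
    (hl : Tendsto (fun t => Complex.exp (h t)) atTop (𝓝 c)) :
    ∃ z, Complex.exp z = c ∧ Tendsto h atTop (𝓝 z) := by
  obtain ⟨N, hN, h1⟩ := branch hc0 hl
  have h2 : ∀ᶠ t in atTop, Complex.exp (h t - Complex.log c) ∈ Complex.slitPlane :=
    h1.eventually (Complex.isOpen_slitPlane.mem_nhds Complex.one_mem_slitPlane)
  obtain ⟨t2, ht2⟩ := eventually_atTop.1 h2
  set t3 := max t1 t2 with ht3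
  have hsub : Ici t3 ⊆ Ici t1 := Ici_subset_Ici.2 (le_max_left _ _)
  have hc' := hc.mono hsub
  have h3 : ContinuousOn (fun t => Complex.log (Complex.exp (h t - Complex.log c))) (Ici t3) := by
    refine ContinuousOn.clog ?_ fun t ht => ht2 t ((le_max_right _ _).trans ht)
    exact (hc'.sub continuousOn_const).cexp
  have h4 : ContinuousOn (fun t => (N t : ℝ)) (Ici t3) := by
    have h5 : ∀ t, (N t : ℝ) = ((h t - Complex.log c -
        Complex.log (Complex.exp (h t - Complex.log c))) / (2 * Real.pi * Complex.I)).re := by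
      intro t
      have h6 : h t - Complex.log c - Complex.log (Complex.exp (h t - Complex.log c)) =
          (N t : ℂ) * (2 * Real.pi * Complex.I) := by
        conv_lhs => rw [hN t]
        have h7 : Complex.log c + Complex.log (Complex.exp (h t - Complex.log c)) +
          (N t : ℂ) * (2 * Real.pi * Complex.I) - Complex.log c = h t - Complex.log c := by
          rw [← hN t]
        rw [h7]
        linear_combination (hN t)
      rw [h6, mul_div_assoc, div_self Complex.two_pi_I_ne_zero, mul_one, Complex.intCast_re]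
    have h7 : ContinuousOn (fun t => ((h t - Complex.log c -
        Complex.log (Complex.exp (h t - Complex.log c))) / (2 * Real.pi * Complex.I)).re)
        (Ici t3) :=
      Complex.continuous_re.comp_continuousOn
        (((hc'.sub continuousOn_const).sub h3).div_const _)
    exact h7.congr fun t _ => h5 t
  have h5 : ContinuousOn N (Ici t3) :=
    (Int.isClosedEmbedding_coe_real.isInducing.continuousOn_iff).2 h4
  exact branch_end hc0 h1 hN (t1 := t3) fun t ht =>
    isPreconnected_Ici.constant h5 (mem_Ici.2 ht) (mem_Ici.2 le_rfl)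

theorem lift_slow {h : ℝ → ℂ} (hs : Slow h) {c : ℂ} (hc0 : c ≠ 0)
    (hl : Tendsto (fun t => Complex.exp (h t)) atTop (𝓝 c)) :
    ∃ z, Complex.exp z = c ∧ Tendsto h atTop (𝓝 z) := by
  obtain ⟨N, hN, h1⟩ := branch hc0 hl
  have h2 : Tendsto (fun t => Complex.log (Complex.exp (h t - Complex.log c))) atTop (𝓝 0) := by
    have h2 : ContinuousAt Complex.log 1 := continuousAt_clog Complex.one_mem_slitPlane
    have h3 := h2.tendsto.comp h1
    rwa [Complex.log_one] at h3
  have h3 : ∀ᶠ t in atTop, ‖Complex.log (Complex.exp (h t - Complex.log c))‖ ≤ 1 := by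
    have := h2.norm.eventually (gt_mem_nhds (show ‖(0 : ℂ)‖ < 1 by simp))
    exact this.mono fun t ht => ht.le
  obtain ⟨t2, ht2⟩ := eventually_atTop.1 h3
  obtain ⟨l, hl1, t0, ht0, h4⟩ := hs 1 one_pos
  set t3 := max t0 t2 with ht3
  have ht30 : 0 < t3 := lt_of_lt_of_le ht0 (le_max_left _ _)
  have h5 : ∀ t s, t3 ≤ t → t ≤ s → s ≤ l * t → N s = N t := by
    intro t s h6 h7 h8
    have h9 := h4 t s ((le_max_left _ _).trans h6) h7 h8
    have h10 := ht2 t ((le_max_right _ _).trans h6)
    have h11 := ht2 s ((le_max_right _ _).trans (h6.trans h7))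
    have e : ((N s - N t : ℤ) : ℂ) * (2 * Real.pi * Complex.I) = (h s - h t) -
        Complex.log (Complex.exp (h s - Complex.log c)) +
        Complex.log (Complex.exp (h t - Complex.log c)) := by
      have e1 := hN s
      have e2 := hN t
      push_cast
      linear_combination e2 - e1
    have h12 : ‖((N s - N t : ℤ) : ℂ) * (2 * Real.pi * Complex.I)‖ ≤ 3 := by
      rw [e]
      refine (norm_add_le _ _).trans ?_
      have := norm_sub_le (h s - h t) (Complex.log (Complex.exp (h s - Complex.log c)))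
      linarith
    have h13 : ‖(2 * Real.pi * Complex.I : ℂ)‖ = 2 * Real.pi := by
      rw [norm_mul, Complex.norm_I, mul_one, norm_mul, Complex.norm_ofNat, Complex.norm_real,
        Real.norm_eq_abs, abs_of_pos Real.pi_pos]
    rw [norm_mul, h13, Complex.norm_intCast] at h12
    by_contra hcon
    have h14 : (1 : ℝ) ≤ |((N s - N t : ℤ) : ℝ)| := by
      have : 1 ≤ |N s - N t| := Int.one_le_abs (sub_ne_zero.2 hcon)
      exact_mod_cast this
    have := Real.pi_gt_three
    nlinarith
  have h6 : ∀ k : ℕ, ∀ t s, t3 ≤ t → t ≤ s → s ≤ l ^ k * t → N s = N t := by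
    intro k
    induction k with
    | zero =>
      intro t s _ h7 h8
      have : s = t := le_antisymm (by simpa using h8) h7
      rw [this]
    | succ k ih =>
      intro t s h7 h8 h9
      have ht : 0 < t := lt_of_lt_of_le ht30 h7
      have hl0 : 0 < l := by linarith
      rcases le_total s (l * t) with h10 | h10
      · exact h5 t s h7 h8 h10
      · have h11 : t ≤ s / l := by
          rw [le_div_iff₀ hl0, mul_comm]
          exact h10
        have h12 : s / l ≤ l ^ k * t := by
          rw [div_le_iff₀ hl0]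
          calc s ≤ l ^ (k + 1) * t := h9
            _ = l ^ k * t * l := by ring
        have h13 : s / l ≤ s := by
          rw [div_le_iff₀ hl0]
          nlinarith
        have h14 : s ≤ l * (s / l) := by
          rw [mul_div_cancel₀ _ hl0.ne']
        rw [h5 (s / l) s (h7.trans h11) h13 h14, ih t (s / l) h7 h11 h12]
  refine branch_end hc0 h1 hN (t1 := t3) fun t ht => ?_
  obtain ⟨k, hk⟩ := pow_unbounded_of_one_lt (t / t3) hl1
  refine h6 k t3 t le_rfl ht ?_
  rw [← div_le_iff₀ ht30]
  exact hk.le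

theorem slow_sub {G : ℝ → ℂ} (hslow : Slow G) (ρ : ℂ) :
    Slow fun t => G t - ρ * (Real.log t : ℂ) := by
  intro η hη
  obtain ⟨l, hl, t0, ht0, h⟩ := hslow (η / 2) (half_pos hη)
  set c : ℝ := η / (2 * (‖ρ‖ + 1)) with hc
  have hρ : 0 < ‖ρ‖ + 1 := by positivity
  have hc0 : 0 < c := by positivity
  refine ⟨min l (Real.exp c), lt_min hl (by
    have := Real.add_one_lt_exp hc0.ne'
    linarith), t0, ht0, fun t s h1 h2 h3 => ?_⟩
  have ht00 : 0 < t := lt_of_lt_of_le ht0 h1
  have hs0 : 0 < s := by linarith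
  have h4 := h t s h1 h2 (h3.trans (mul_le_mul_of_nonneg_right (min_le_left _ _) ht00.le))
  have hst : 1 ≤ s / t := by rwa [le_div_iff₀ ht00, one_mul]
  have h6 : Real.log (s / t) ≤ c := by
    have h7 : s / t ≤ Real.exp c := by
      rw [div_le_iff₀ ht00]
      exact h3.trans (mul_le_mul_of_nonneg_right (min_le_right _ _) ht00.le)
    rw [← Real.log_exp c]
    exact Real.log_le_log (by positivity) h7
  have e : (G s - ρ * (Real.log s : ℂ)) - (G t - ρ * (Real.log t : ℂ)) = (G s - G t) -
      ρ * ((Real.log (s / t) : ℝ) : ℂ) := by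
    rw [Real.log_div hs0.ne' ht00.ne']
    push_cast
    ring
  simp only
  rw [e]
  refine (norm_sub_le _ _).trans ?_
  rw [norm_mul, Complex.norm_real, Real.norm_eq_abs, abs_of_nonneg (Real.log_nonneg hst)]
  have h8 : ‖ρ‖ * Real.log (s / t) ≤ η / 2 := by
    calc ‖ρ‖ * Real.log (s / t) ≤ (‖ρ‖ + 1) * c := by
          apply mul_le_mul _ h6 (Real.log_nonneg hst) hρ.le
          linarith
      _ = η / 2 := by
        rw [hc]
        field_simp
  linarith

section
variable {ι : Type} [Countable ι] {w : ι → ℂ} {τ : ι → ℝ}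

theorem DS_cont (hs : ∀ ε : ℝ, 0 < ε → Summable fun i => ‖w i‖ * Real.exp (-(ε * τ i)))
    (hτ : ∀ i, 0 ≤ τ i) : ContinuousOn (DS w τ) (Ioi 0) := by
  intro ε hε
  have hε' : 0 < ε := hε
  have h1 : ContinuousOn (DS w τ) (Ici (ε / 2)) := by
    unfold DS
    refine continuousOn_tsum (u := fun i => ‖w i‖ * Real.exp (-((ε / 2) * τ i))) (fun i => ?_)
      (hs (ε / 2) (by positivity)) fun i x hx => ?_
    · have : Continuous fun x : ℝ => w i * (Real.exp (-(x * τ i)) : ℂ) := by fun_prop
      exact this.continuousOn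
    · rw [norm_mul, Complex.norm_real, Real.norm_eq_abs, Real.abs_exp]
      refine mul_le_mul_of_nonneg_left (Real.exp_le_exp.2 ?_) (norm_nonneg _)
      have := mul_le_mul_of_nonneg_right (mem_Ici.1 hx) (hτ i)
      linarith
  exact (h1.continuousAt (Ici_mem_nhds (by linarith))).continuousWithinAt

/-- **Partial products and the radial limit.** -/
theorem core_exp (hs : ∀ ε : ℝ, 0 < ε → Summable fun i => ‖w i‖ * Real.exp (-(ε * τ i)))
    (hτ : ∀ i, 0 ≤ τ i) (hslow : Slow (PS w τ)) (ρ : ℂ) {c : ℂ} (hc : c ≠ 0) :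
    Tendsto (fun t : ℝ => Complex.exp (PS w τ t - ρ * (Real.log t : ℂ))) atTop (𝓝 c) ↔
      Tendsto (fun t : ℝ => Complex.exp (DS w τ t⁻¹ - ρ * (Real.log t : ℂ))) atTop
        (𝓝 (c * Complex.exp (-(ρ * (Real.eulerMascheroniConstant : ℂ))))) := by
  constructor
  · intro h
    obtain ⟨z, hz, h1⟩ := lift_slow (slow_sub hslow ρ) hc h
    have h2 := (core hs hτ hslow ρ z).1 h1
    have h3 := (Complex.continuous_exp.tendsto _).comp h2
    rw [sub_eq_add_neg, Complex.exp_add, hz] at h3
    exact h3
  · intro h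
    have h0 : ContinuousOn (fun t : ℝ => DS w τ t⁻¹ - ρ * (Real.log t : ℂ)) (Ici 1) := by
      refine ContinuousOn.sub ?_ ?_
      · refine (DS_cont hs hτ).comp ?_ ?_
        · refine continuousOn_inv₀.mono fun x hx => ?_
          have : (1 : ℝ) ≤ x := hx
          exact mem_compl_singleton_iff.2 (by linarith)
        · intro x hx
          have : (1 : ℝ) ≤ x := hx
          exact mem_Ioi.2 (by positivity)
      · refine continuousOn_const.mul (Complex.continuous_ofReal.comp_continuousOn ?_)
        refine Real.continuousOn_log.mono fun x hx => ?_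
        have : (1 : ℝ) ≤ x := hx
        exact mem_compl_singleton_iff.2 (by linarith)
    obtain ⟨z, hz, h1⟩ := lift_cont h0 (mul_ne_zero hc (Complex.exp_ne_zero _)) h
    have h2 := (core hs hτ hslow ρ (z + ρ * (Real.eulerMascheroniConstant : ℂ))).2 (by
      rw [add_sub_cancel_right]
      exact h1)
    have h3 := (Complex.continuous_exp.tendsto _).comp h2
    have h4 : Complex.exp (z + ρ * (Real.eulerMascheroniConstant : ℂ)) = c := by
      rw [Complex.exp_add, hz, mul_assoc, ← Complex.exp_add, neg_add_cancel, Complex.exp_zero,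
        mul_one]
    rw [h4] at h3
    exact h3

end

end Pool.Agent.W5h21.TB
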