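import Pool.Agent.W5h21.TB.Cl
import Pool.Agent.Y707.PH.Phi

/-! The products over the closed points of the model of a family. -/

set_option autoImplicit false

namespace Pool.Agent.W5h21.TB

open NumberField IsDedekindDomain Filter Topology
open Pool.Agent.H126R3 (Qc Qc_pos)
open Pool.Agent.W385.CP
open Pool.Agent.W353.FB (Fibration)
open Pool.Agent.Y707.PH

section
variable {K : Type} [Field K] [NumberField K] {f : Fibration K}
  {R : Finset (HeightOneSpectrum (𝓞 K))} {F : Type} [Field F] [NumberField F] [Algebra K F] {C : ℝ}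

theorem pts_finite (T : ℝ) :
    {y : Pts f R F | ((Nat.card (MvPolynomial (Fin f.l) (𝓞 F) ⧸ y.1.asIdeal) : ℕ) : ℝ) ≤ T}.Finite := by
  have h := finY (B := Bf f F) (Fintype.card (Fin f.l)) (Module.finrank ℤ (𝓞 F)) T
  refine (h.preimage (f := fun y : Pts f R F => y.1) ?_)
  exact Subtype.val_injective.injOn

/-- the factor at a closed point -/
theorem factor_eq (hf : IsLisse f R C) {y : MaximalSpectrum (Bf f F)} (hy : y ∈ Ys f R F) {s : ℂ}
    (hs : (1 : ℝ) / 2 < s.re) :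
    Complex.exp (∑' m : ℕ, tm (tr f R F) s (y, m)) =
      ((eg f.eqFibre f.r (md f F y)).map fun z => (1 - z * ((qn y : ℕ) : ℂ) ^ (-s))⁻¹).prod := by
  have hq1 : (1 : ℝ) < ((qn y : ℕ) : ℝ) := by
    have := two_le_qn y
    exact_mod_cast (by omega : 1 < qn y)
  have h2 : ∀ z ∈ eg f.eqFibre f.r (md f F y), ‖z * ((qn y : ℕ) : ℂ) ^ (-s)‖ < 1 := by
    intro z hz
    rw [norm_mul, Complex.norm_natCast_cpow_of_pos (by have := two_le_qn y; omega),
      (eigen_md hf hy).1.norm hz]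
    change ((qn y : ℕ) : ℝ) ^ (((1 : ℕ) : ℝ) / 2) * _ < 1
    rw [← Real.rpow_add (by linarith), Complex.neg_re]
    refine Real.rpow_lt_one_of_one_lt_of_neg hq1 ?_
    push_cast
    linarith
  have h3 := exp_log _ _ h2
  rw [← h3]
  congr 1
  refine tsum_congr fun m => ?_
  unfold tm tr
  rw [if_pos hy, ← Complex.cpow_nat_mul]
  congr 3
  push_cast
  ring

theorem factor_off {y : MaximalSpectrum (Bf f F)} (hy : y ∉ Ys f R F) (s : ℂ) :
    Complex.exp (∑' m : ℕ, tm (tr f R F) s (y, m)) = 1 := by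
  have h : ∀ m : ℕ, tm (tr f R F) s (y, m) = 0 := by
    intro m
    unfold tm tr
    rw [if_neg hy, zero_mul, zero_div]
  simp only [h, tsum_zero, Complex.exp_zero]

/-- the product over the closed points of bounded norm -/
theorem prod_pts (hf : IsLisse f R C) {β : Pts f R F → Multiset ℂ} (hβ : IsLocal f R F β) {s : ℂ}
    (hs : (1 : ℝ) / 2 < s.re) (T : ℝ) :
    (∏ᶠ (y : Pts f R F)
      (_ : ((Nat.card (MvPolynomial (Fin f.l) (𝓞 F) ⧸ y.1.asIdeal) : ℕ) : ℝ) ≤ T),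
      ((β y).map fun z => 1 - z *
        ((Nat.card (MvPolynomial (Fin f.l) (𝓞 F) ⧸ y.1.asIdeal) : ℕ) : ℂ) ^ (-s)).prod) =
    (∏ᶠ (y : MaximalSpectrum (Bf f F)) (_ : ((qn y : ℕ) : ℝ) ≤ T),
      Complex.exp (∑' m : ℕ, tm (tr f R F) s (y, m)))⁻¹ := by
  classical
  obtain rfl := isLocal_unique hβ (isLocal_eg hf)
  have hinv : ∀ (β : Multiset ℂ) (x : ℂ), (β.map fun z => 1 - z * x).prod =
      ((β.map fun z => (1 - z * x)⁻¹).prod)⁻¹ := by
    intro β x
    rw [← Multiset.prod_map_inv]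
    congr 1
    refine Multiset.map_congr rfl fun z _ => ?_
    simp
  set G : MaximalSpectrum (Bf f F) → ℂ := fun y =>
    Complex.exp (∑' m : ℕ, tm (tr f R F) s (y, m)) with hG
  have h1 : ∀ y : Pts f R F, ((eg f.eqFibre f.r (md f F y.1)).map fun z => 1 - z *
        ((Nat.card (MvPolynomial (Fin f.l) (𝓞 F) ⧸ y.1.asIdeal) : ℕ) : ℂ) ^ (-s)).prod =
      (G y.1)⁻¹ := by
    intro y
    rw [hinv]
    simp only [hG]
    rw [factor_eq hf y.2 hs]
    rfl
  have hfin := finY (B := Bf f F) (Fintype.card (Fin f.l)) (Module.finrank ℤ (𝓞 F)) T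
  have hfin' := pts_finite (f := f) (R := R) (F := F) T
  have h2 : (∏ᶠ (y : Pts f R F)
      (_ : ((Nat.card (MvPolynomial (Fin f.l) (𝓞 F) ⧸ y.1.asIdeal) : ℕ) : ℝ) ≤ T),
      ((eg f.eqFibre f.r (md f F y.1)).map fun z => 1 - z *
        ((Nat.card (MvPolynomial (Fin f.l) (𝓞 F) ⧸ y.1.asIdeal) : ℕ) : ℂ) ^ (-s)).prod) =
      ∏ y ∈ hfin'.toFinset, (G y.1)⁻¹ := by
    refine (finprod_mem_eq_finite_toFinset_prod _ hfin').trans ?_
    exact Finset.prod_congr rfl fun y _ => h1 y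
  have h3 : (∏ᶠ (y : MaximalSpectrum (Bf f F)) (_ : ((qn y : ℕ) : ℝ) ≤ T), G y) =
      ∏ y ∈ hfin.toFinset, G y := finprod_mem_eq_finite_toFinset_prod _ hfin
  rw [h2, h3, Finset.prod_inv_distrib]
  congr 1
  have h4 : ∏ y ∈ hfin'.toFinset, G y.1 =
      ∏ y ∈ hfin'.toFinset.image (fun y : Pts f R F => y.1), G y := by
    rw [Finset.prod_image]
    intro a _ b _ hab
    exact Subtype.ext hab
  rw [h4]
  refine Finset.prod_subset (fun y hy => ?_) fun y hy hy' => ?_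
  · obtain ⟨y', h5, rfl⟩ := Finset.mem_image.1 hy
    rw [Set.Finite.mem_toFinset] at h5 ⊢
    exact h5
  · by_contra hcon
    apply hy'
    have h6 : y ∈ Ys f R F := by
      by_contra h7
      exact hcon (factor_off h7 s)
    rw [Set.Finite.mem_toFinset] at hy
    refine Finset.mem_image.2 ⟨⟨y, h6⟩, ?_, rfl⟩
    rw [Set.Finite.mem_toFinset]
    exact hy

/-- the comparison of the product over the closed points with the partial sums of the logarithm -/
theorem prod_cmp (hf : IsLisse f R C) (hm : 1 ≤ f.m) {β : Pts f R F → Multiset ℂ}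
    (hβ : IsLocal f R F β) {s : ℂ} (hs : s.re = f.m + 1) :
    Tendsto (fun T : ℝ => (∏ᶠ (y : Pts f R F)
      (_ : ((Nat.card (MvPolynomial (Fin f.l) (𝓞 F) ⧸ y.1.asIdeal) : ℕ) : ℝ) ≤ T),
      ((β y).map fun z => 1 - z *
        ((Nat.card (MvPolynomial (Fin f.l) (𝓞 F) ⧸ y.1.asIdeal) : ℕ) : ℂ) ^ (-s)).prod) *
      Complex.exp (PS (wA (cf f R F) s) tQ (Real.log T))) atTop (𝓝 1) := by
  have hm1 : (1 : ℝ) ≤ f.m := by exact_mod_cast hm
  have hs1 : (f.m : ℝ) + 1 + 2 * (1 / 2) < 2 * s.re := by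
    rw [hs]
    linarith
  have hs2 : (1 : ℝ) / 2 < s.re := by
    rw [hs]
    linarith
  have h1 := (closed (B := Bf f F) (Fintype.card (Fin f.l)) (Module.finrank ℤ (𝓞 F))
    (Y := Ys f R F) (n := f.m) (C1 := Module.finrank ℤ (𝓞 F) * |C|) (tr := tr f R F)
    (w := 1 / 2) (Ct := |C|) (abs_nonneg C) (tr_norm hf) (fun y hy m => by
      unfold tr
      rw [if_neg hy]) (few hf) s hs1 hs2).2
  have h2 := (Complex.continuous_exp.tendsto _).comp h1.neg
  rw [neg_zero, Complex.exp_zero] at h2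
  refine h2.congr' ?_
  filter_upwards [eventually_gt_atTop 0] with T hT
  have h3 := closed_prod (B := Bf f F) (Fintype.card (Fin f.l)) (Module.finrank ℤ (𝓞 F))
    (Y := Ys f R F) (n := f.m) (C1 := Module.finrank ℤ (𝓞 F) * |C|) (tr := tr f R F)
    (w := 1 / 2) (Ct := |C|) (abs_nonneg C) (tr_norm hf) (fun y hy m => by
      unfold tr
      rw [if_neg hy]) (few hf) s hs1 hs2 hT
  rw [prod_pts hf hβ hs2 T, h3, ← Complex.exp_neg, ← Complex.exp_add]
  simp only [Function.comp_apply]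
  congr 1
  change -(_ - PS (wA (Ac (tr f R F)) s) tQ (Real.log T)) =
    _ + PS (wA (Ac (tr f R F)) s) tQ (Real.log T)
  ring

end

end Pool.Agent.W5h21.TB
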