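import Pool.Agent.W5h21.TB.Taub

/-! The Laplace means of the logarithm. -/

set_option autoImplicit false

namespace Pool.Agent.W5h21.TB

open Filter Topology MeasureTheory Set

theorem intble_log_exp : IntegrableOn (fun x : ℝ => Real.log x * Real.exp (-x)) (Ioi 0) := by
  have hmeas : Measurable (fun x : ℝ => Real.log x * Real.exp (-x)) := by fun_prop
  refine Integrable.mono' (mj_int 0 1) hmeas.aestronglyMeasurable ?_
  filter_upwards [ae_restrict_mem measurableSet_Ioi] with x hx
  have hx' : 0 < x := hx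
  rw [mj_eq 0 1 hx', norm_mul, Real.norm_eq_abs, Real.norm_eq_abs, Real.abs_exp]
  refine mul_le_mul_of_nonneg_right ?_ (Real.exp_nonneg _)
  have h1 := log_le_two_sqrt hx'
  have h2 : 0 ≤ x ^ (-(1 / 2 : ℝ)) := by positivity
  rw [Real.log_inv] at h1
  rw [abs_le]
  constructor
  · linarith
  · have h4 : Real.log x ≤ x := (Real.log_le_sub_one_of_pos hx').trans (by linarith)
    linarith

theorem int_log_exp : ∫ x in Ioi (0 : ℝ), Real.log x * Real.exp (-x) =
    -Real.eulerMascheroniConstant := by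
  have h1 := Complex.hasDerivAt_GammaIntegral (s := 1) (by norm_num)
  have h2 := Complex.hasDerivAt_Gamma_one
  have h3 : Complex.Gamma =ᶠ[𝓝 1] Complex.GammaIntegral := by
    have : {s : ℂ | 0 < s.re} ∈ 𝓝 (1 : ℂ) :=
      (isOpen_lt continuous_const Complex.continuous_re).mem_nhds (by norm_num)
    filter_upwards [this] with s hs
    exact Complex.Gamma_eq_integral hs
  have h4 := h1.unique (h3.hasDerivAt_iff.1 h2)
  have h5 : ∀ x : ℝ, (x : ℂ) ^ ((1 : ℂ) - 1) * ((Real.log x : ℂ) * (Real.exp (-x) : ℂ)) =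
      ((Real.log x * Real.exp (-x) : ℝ) : ℂ) := by
    intro x
    rw [sub_self, Complex.cpow_zero, one_mul]
    push_cast
    ring
  simp only [h5] at h4
  rw [integral_complex_ofReal] at h4
  exact_mod_cast h4

/-- the positive part of the logarithm -/
noncomputable def lp (t : ℝ) : ℝ := max 0 (Real.log t)

theorem lp_nonneg (t : ℝ) : 0 ≤ lp t := le_max_left _ _

theorem lp_meas : Measurable lp := by
  unfold lp
  fun_prop

theorem lp_of_one_le {t : ℝ} (h : 1 ≤ t) : lp t = Real.log t := max_eq_right (Real.log_nonneg h)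

theorem lp_of_le_one {t : ℝ} (h0 : 0 ≤ t) (h : t ≤ 1) : lp t = 0 :=
  max_eq_left (Real.log_nonpos h0 h)

theorem lp_sub (y : ℝ) : lp y = Real.log y + lp y⁻¹ := by
  unfold lp
  rw [Real.log_inv]
  rcases le_total 0 (Real.log y) with h | h
  · rw [max_eq_right h, max_eq_left (by linarith), add_zero]
  · rw [max_eq_left h, max_eq_right (by linarith), add_neg_cancel]

theorem lp_inv_le {x : ℝ} (hx : 0 < x) : lp x⁻¹ ≤ 2 * x ^ (-(1 / 2 : ℝ)) :=
  max_le (by positivity) (log_le_two_sqrt hx)

theorem lp_mono {x y : ℝ} (hx : 0 < x) (h : x ≤ y) : lp x ≤ lp y :=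
  max_le_max le_rfl (Real.log_le_log hx h)

/-- the remainder -/
noncomputable def lr (t : ℝ) : ℝ := ∫ x in Ioi (0 : ℝ), lp (x * t)⁻¹ * Real.exp (-x)

theorem lr_bound {t x : ℝ} (ht : 1 ≤ t) (hx : 0 < x) :
    ‖lp (x * t)⁻¹ * Real.exp (-x)‖ ≤ mj 0 1 x := by
  rw [mj_eq 0 1 hx, norm_mul, Real.norm_eq_abs, Real.norm_eq_abs, Real.abs_exp,
    abs_of_nonneg (lp_nonneg _)]
  refine mul_le_mul_of_nonneg_right ?_ (Real.exp_nonneg _)
  have h1 : lp (x * t)⁻¹ ≤ lp x⁻¹ := by
    refine lp_mono (by positivity) ?_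
    rw [inv_le_inv₀ (by positivity) hx]
    nlinarith
  have h2 := lp_inv_le hx
  linarith

theorem lr_int {t : ℝ} (ht : 1 ≤ t) :
    IntegrableOn (fun x : ℝ => lp (x * t)⁻¹ * Real.exp (-x)) (Ioi 0) := by
  have hmeas : Measurable (fun x : ℝ => lp (x * t)⁻¹ * Real.exp (-x)) := by
    have := lp_meas
    fun_prop
  refine Integrable.mono' (mj_int 0 1) hmeas.aestronglyMeasurable ?_
  filter_upwards [ae_restrict_mem measurableSet_Ioi] with x hx
  exact lr_bound ht hx

theorem lr_tendsto : Tendsto lr atTop (𝓝 0) := by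
  have h1 : ∫ x in Ioi (0 : ℝ), (0 : ℝ) = 0 := by simp
  rw [← h1]
  unfold lr
  refine tendsto_integral_filter_of_dominated_convergence (mj 0 1) ?_ ?_ (mj_int 0 1) ?_
  · refine Eventually.of_forall fun t => ?_
    have hmeas : Measurable (fun x : ℝ => lp (x * t)⁻¹ * Real.exp (-x)) := by
      have := lp_meas
      fun_prop
    exact hmeas.aestronglyMeasurable
  · filter_upwards [eventually_ge_atTop 1] with t ht
    filter_upwards [ae_restrict_mem measurableSet_Ioi] with x hx
    exact lr_bound ht hx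
  · filter_upwards [ae_restrict_mem measurableSet_Ioi] with x hx
    have hx' : 0 < x := hx
    refine tendsto_const_nhds.congr' ?_
    filter_upwards [eventually_ge_atTop x⁻¹] with t ht
    have ht0 : 0 < t := lt_of_lt_of_le (by positivity) ht
    have h2 : (x * t)⁻¹ ≤ 1 := by
      rw [inv_le_one₀ (by positivity)]
      calc (1 : ℝ) = x * x⁻¹ := (mul_inv_cancel₀ hx'.ne').symm
        _ ≤ x * t := mul_le_mul_of_nonneg_left ht hx'.le
    rw [lp_of_le_one (by positivity) h2, zero_mul]

theorem lp_int {t : ℝ} (ht : 1 ≤ t) :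
    IntegrableOn (fun x : ℝ => lp (x * t) * Real.exp (-x)) (Ioi 0) := by
  have h1 : IntegrableOn (fun x : ℝ => Real.log x * Real.exp (-x) +
      Real.log t * Real.exp (-x) + lp (x * t)⁻¹ * Real.exp (-x)) (Ioi 0) :=
    (intble_log_exp.add ((integrableOn_exp_neg_Ioi 0).const_mul _)).add (lr_int ht)
  refine h1.congr_fun (fun x hx => ?_) measurableSet_Ioi
  have hx' : 0 < x := hx
  have ht' : 0 < t := by linarith
  simp only
  rw [lp_sub (x * t), Real.log_mul hx'.ne' ht'.ne']
  ring

theorem int_lp {t : ℝ} (ht : 1 ≤ t) : ∫ x in Ioi (0 : ℝ), lp (x * t) * Real.exp (-x) =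
    Real.log t - Real.eulerMascheroniConstant + lr t := by
  have h1 : ∫ x in Ioi (0 : ℝ), lp (x * t) * Real.exp (-x) =
      ∫ x in Ioi (0 : ℝ), (Real.log x * Real.exp (-x) +
      Real.log t * Real.exp (-x) + lp (x * t)⁻¹ * Real.exp (-x)) := by
    refine setIntegral_congr_fun measurableSet_Ioi fun x hx => ?_
    have hx' : 0 < x := hx
    have ht' : 0 < t := by linarith
    rw [lp_sub (x * t), Real.log_mul hx'.ne' ht'.ne']
    ring
  have i1 : IntegrableOn (fun x : ℝ => Real.log t * Real.exp (-x)) (Ioi 0) :=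
    (integrableOn_exp_neg_Ioi 0).const_mul _
  have i2 : IntegrableOn (fun x : ℝ => Real.log x * Real.exp (-x) +
      Real.log t * Real.exp (-x)) (Ioi 0) := intble_log_exp.add i1
  rw [h1, integral_add i2 (lr_int ht), integral_add intble_log_exp i1, int_log_exp,
    integral_const_mul, integral_exp_neg_Ioi_zero]
  unfold lr
  ring

/-- the Laplace means of the logarithm -/
theorem LM_lp : Tendsto (fun t : ℝ => LM (fun u => (lp u : ℂ)) t - (Real.log t : ℂ)) atTop
    (𝓝 (-(Real.eulerMascheroniConstant : ℂ))) := by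
  have h1 : Tendsto (fun t : ℝ => ((-Real.eulerMascheroniConstant + lr t : ℝ) : ℂ)) atTop
      (𝓝 ((-Real.eulerMascheroniConstant + 0 : ℝ) : ℂ)) :=
    (Complex.continuous_ofReal.tendsto _).comp (lr_tendsto.const_add _)
  rw [add_zero, Complex.ofReal_neg] at h1
  refine h1.congr' ?_
  filter_upwards [eventually_ge_atTop 1] with t ht
  have h2 : LM (fun u => (lp u : ℂ)) t =
      ((∫ x in Ioi (0 : ℝ), lp (x * t) * Real.exp (-x) : ℝ) : ℂ) := by
    unfold LM
    rw [← integral_complex_ofReal]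
    refine integral_congr_ae (Eventually.of_forall fun x => ?_)
    simp only
    push_cast
    ring
  rw [h2, int_lp ht]
  push_cast
  ring

/-- the logarithm is slowly oscillating -/
theorem lp_slow {t s : ℝ} (ht : 1 ≤ t) (h : t ≤ s) : |lp s - lp t| ≤ Real.log (s / t) := by
  have hs : 1 ≤ s := ht.trans h
  have ht0 : 0 < t := by linarith
  have hs0 : 0 < s := by linarith
  rw [lp_of_one_le ht, lp_of_one_le hs, ← Real.log_div hs0.ne' ht0.ne', abs_of_nonneg]
  exact Real.log_nonneg (by rwa [le_div_iff₀ ht0, one_mul])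

end Pool.Agent.W5h21.TB
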