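import Pool.Agent.W5h21.TB.Exp
import Pool.Agent.W385.CP.Gen
import Pool.Agent.Helper923.HMertens

/-! Sums over prime powers at the edge of convergence. -/

set_option autoImplicit false

namespace Pool.Agent.W5h21.TB

open Filter Topology MeasureTheory Set
open Pool.Agent.H126R3 (Qc Qc_pos Qc_rpow summ_ind summable_Q)
open Pool.Agent.W385.CP

/-- the logarithm of the prime power -/
noncomputable def tQ (c : Nat.Primes × ℕ) : ℝ := Real.log (Qc c)

theorem tQ_nonneg (c : Nat.Primes × ℕ) : 0 ≤ tQ c :=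
  Real.log_nonneg (by exact_mod_cast Qc_pos c)

theorem tQ_zero (p : Nat.Primes) : tQ (p, 0) = Real.log (p : ℕ) := by
  unfold tQ
  rw [Qc_zero]

/-- the tails of a summable family -/
theorem tail {ι : Type} {f : ι → ℝ} (hf : Summable f) (hf0 : ∀ i, 0 ≤ f i) (τ : ι → ℝ) :
    Tendsto (fun t : ℝ => ∑' i, if t < τ i then f i else 0) atTop (𝓝 0) := by
  classical
  suffices h : Tendsto (fun t : ℝ => ∑' i, if t < τ i then f i else 0) atTop
      (𝓝 (∑' i, (fun _ : ι => (0 : ℝ)) i)) by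
    rwa [tsum_zero] at h
  refine tendsto_tsum_of_dominated_convergence hf (fun i => ?_) (Eventually.of_forall fun t i => ?_)
  · refine tendsto_const_nhds.congr' ?_
    filter_upwards [eventually_ge_atTop (τ i)] with t ht
    rw [if_neg (not_lt.2 ht)]
  · rw [Real.norm_eq_abs]
    split_ifs
    · rw [abs_of_nonneg (hf0 i)]
    · rw [abs_zero]
      exact hf0 i

/-- the sum over the primes in a short interval -/
theorem prime_sum : ∃ C : ℝ, 0 ≤ C ∧ ∀ t s : ℝ, 2 ≤ t → t ≤ s → ∀ S : Finset Nat.Primes,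
    (∀ p ∈ S, t < Real.log (p : ℕ) ∧ Real.log (p : ℕ) ≤ s) →
    ∑ p ∈ S, (1 : ℝ) / ((p : ℕ) : ℝ) ≤ Real.log (s / t) + C / t := by
  obtain ⟨C, hC0, hC⟩ := Pool.Agent.Helper923.HMertens.mertens_ratio
  refine ⟨2 + 2 * C, by positivity, fun t s ht hts S hS => ?_⟩
  have hs : 2 ≤ s := ht.trans hts
  set a := ⌊Real.exp t⌋₊ with ha
  set b := ⌊Real.exp s⌋₊ with hb
  have he2 : (2 : ℝ) < Real.exp 1 := by
    have := Real.exp_one_gt_d9
    linarith
  have he3 : (4 : ℝ) ≤ Real.exp t := by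
    have h1 : Real.exp 2 ≤ Real.exp t := Real.exp_le_exp.2 ht
    have h2 : Real.exp 2 = Real.exp 1 * Real.exp 1 := by
      rw [← Real.exp_add]
      norm_num
    nlinarith
  have hab : a ≤ b := Nat.floor_le_floor (Real.exp_le_exp.2 hts)
  have ha2 : 2 ≤ a := Nat.le_floor (by push_cast; linarith)
  have h1 := hC a b ha2 hab
  have h2 : ∑ p ∈ S, (1 : ℝ) / ((p : ℕ) : ℝ) ≤
      ∑ p ∈ (Finset.Ioc a b).filter Nat.Prime, (1 : ℝ) / p := by
    have h3 : ∑ p ∈ S, (1 : ℝ) / ((p : ℕ) : ℝ) =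
        ∑ p ∈ S.image (fun p : Nat.Primes => (p : ℕ)), (1 : ℝ) / (p : ℝ) := by
      rw [Finset.sum_image]
      intro x _ y _ hxy
      exact Subtype.ext hxy
    rw [h3]
    refine Finset.sum_le_sum_of_subset_of_nonneg (fun q hq => ?_) fun _ _ _ => by positivity
    obtain ⟨p, hp, rfl⟩ := Finset.mem_image.1 hq
    obtain ⟨h4, h5⟩ := hS p hp
    have hp0 : (0 : ℝ) < ((p : ℕ) : ℝ) := by exact_mod_cast p.2.pos
    rw [Finset.mem_filter, Finset.mem_Ioc]
    refine ⟨⟨?_, ?_⟩, p.2⟩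
    · rw [ha, Nat.floor_lt (Real.exp_nonneg _)]
      exact (Real.lt_log_iff_exp_lt hp0).1 h4
    · exact Nat.le_floor ((Real.log_le_iff_le_exp hp0).1 h5)
  have hla : t - 1 ≤ Real.log a := by
    have h3 : Real.exp t - 1 < a := by
      have := Nat.lt_floor_add_one (Real.exp t)
      rw [← ha] at this
      linarith
    have h4 : Real.exp (t - 1) ≤ a := by
      rw [Real.exp_sub]
      have h5 : Real.exp t / Real.exp 1 ≤ Real.exp t / 2 :=
        div_le_div_of_nonneg_left (Real.exp_nonneg _) (by norm_num) he2.le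
      linarith
    rw [Real.le_log_iff_exp_le (by exact_mod_cast (by omega : 0 < a))]
    exact h4
  have hlb : Real.log b ≤ s := by
    rw [Real.log_le_iff_le_exp (by exact_mod_cast (by omega : 0 < b))]
    exact Nat.floor_le (Real.exp_nonneg _)
  have hlb0 : 0 < Real.log b := by
    apply Real.log_pos
    exact_mod_cast (by omega : 1 < b)
  have ht1 : 0 < t - 1 := by linarith
  have hla0 : 0 < Real.log a := by linarith
  have ht0 : 0 < t := by linarith
  have hs0 : 0 < s := by linarith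
  have h3 : Real.log (Real.log b / Real.log a) ≤ Real.log (s / t) + 2 / t := by
    have h4 : Real.log b / Real.log a ≤ s / (t - 1) := by
      rw [div_le_div_iff₀ hla0 ht1]
      nlinarith
    have h5 : s / (t - 1) = (s / t) * (t / (t - 1)) := by
      field_simp
    have h6 : Real.log (t / (t - 1)) ≤ 2 / t := by
      refine (Real.log_le_sub_one_of_pos (by positivity)).trans ?_
      have h7 : t / (t - 1) - 1 = 1 / (t - 1) := by
        field_simp
        ring
      rw [h7, div_le_div_iff₀ ht1 ht0]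
      linarith
    calc Real.log (Real.log b / Real.log a) ≤ Real.log (s / (t - 1)) :=
          Real.log_le_log (by positivity) h4
      _ = Real.log (s / t) + Real.log (t / (t - 1)) := by
          rw [h5, Real.log_mul (by positivity) (by positivity)]
      _ ≤ _ := by linarith
  have h4 : C / Real.log a ≤ 2 * C / t := by
    rw [div_le_div_iff₀ hla0 ht0]
    nlinarith
  have h5 := (abs_le.1 h1).2
  calc ∑ p ∈ S, (1 : ℝ) / ((p : ℕ) : ℝ) ≤
      Real.log (Real.log b / Real.log a) + C / Real.log a := by linarith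
    _ ≤ (Real.log (s / t) + 2 / t) + 2 * C / t := by linarith
    _ = Real.log (s / t) + (2 + 2 * C) / t := by ring

section
variable {w : Nat.Primes × ℕ → ℂ} {C : ℝ}

/-- slow oscillation -/
theorem slow_pp (hC : 0 ≤ C) (h0 : ∀ p : Nat.Primes, ‖w (p, 0)‖ ≤ C / ((p : ℕ) : ℝ))
    (h1 : Summable fun c : Nat.Primes × ℕ => if c.2 = 0 then 0 else ‖w c‖)
    (hs : ∀ ε : ℝ, 0 < ε → Summable fun i => ‖w i‖ * Real.exp (-(ε * tQ i))) :
    Slow (PS w tQ) := by
  classical
  intro η hη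
  obtain ⟨C1, hC1, hM⟩ := prime_sum
  have h10 : ∀ c : Nat.Primes × ℕ, 0 ≤ (if c.2 = 0 then 0 else ‖w c‖) := by
    intro c
    split_ifs
    · exact le_rfl
    · exact norm_nonneg _
  have h2 := (tail h1 h10 tQ).eventually (gt_mem_nhds (half_pos hη))
  have h3 : Tendsto (fun t : ℝ => C * (C1 / t)) atTop (𝓝 0) := by
    have h4 : Tendsto (fun t : ℝ => C1 / t) atTop (𝓝 0) := tendsto_const_nhds.div_atTop tendsto_id
    have h5 := h4.const_mul C
    rwa [mul_zero] at h5
  have h4 := h3.eventually (gt_mem_nhds (show 0 < η / 4 by positivity))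
  obtain ⟨t0, ht0⟩ := eventually_atTop.1 (h2.and h4)
  set d : ℝ := η / (4 * (C + 1)) with hd
  have hd0 : 0 < d := by positivity
  refine ⟨Real.exp d, by
    have := Real.add_one_lt_exp hd0.ne'
    linarith, max t0 2, lt_of_lt_of_le (by norm_num) (le_max_right _ _), fun t s ht hts hsl => ?_⟩
  have ht2 : 2 ≤ t := (le_max_right _ _).trans ht
  have ht00 : 0 < t := by linarith
  have hs00 : 0 < s := by linarith
  obtain ⟨h5, h6⟩ := ht0 t ((le_max_left _ _).trans ht)
  have h7 : Real.log (s / t) ≤ d := by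
    rw [← Real.log_exp d]
    refine Real.log_le_log (by positivity) ?_
    rw [div_le_iff₀ ht00]
    exact hsl
  -- the difference
  set u1 : Nat.Primes × ℕ → ℝ := fun c =>
    if c.2 = 0 ∧ t < tQ c ∧ tQ c ≤ s then ‖w c‖ else 0 with hu1
  set u2 : Nat.Primes × ℕ → ℝ := fun c =>
    if t < tQ c then (if c.2 = 0 then 0 else ‖w c‖) else 0 with hu2
  have hu1_le : ∀ S : Finset (Nat.Primes × ℕ), ∑ c ∈ S, u1 c ≤ C * (d + C1 / t) := by
    intro S
    set S' := (S.filter fun c => c.2 = 0 ∧ t < tQ c ∧ tQ c ≤ s) with hS'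
    have e1 : ∑ c ∈ S, u1 c = ∑ c ∈ S', ‖w c‖ := by
      rw [hS', Finset.sum_filter]
    rw [e1]
    have e2 : ∀ c ∈ S', ‖w c‖ ≤ C * (1 / ((c.1 : ℕ) : ℝ)) := by
      intro c hc
      obtain ⟨p, k⟩ := c
      obtain ⟨hk, -⟩ := (Finset.mem_filter.1 hc).2
      simp only at hk
      subst hk
      refine (h0 p).trans (le_of_eq ?_)
      rw [mul_one_div]
    refine (Finset.sum_le_sum e2).trans ?_
    rw [← Finset.mul_sum]
    refine mul_le_mul_of_nonneg_left ?_ hC
    have e3 : ∑ c ∈ S', (1 : ℝ) / ((c.1 : ℕ) : ℝ) =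
        ∑ p ∈ S'.image Prod.fst, (1 : ℝ) / ((p : ℕ) : ℝ) := by
      rw [Finset.sum_image]
      intro x hx y hy hxy
      have hx' := (Finset.mem_filter.1 (Finset.mem_coe.1 hx)).2.1
      have hy' := (Finset.mem_filter.1 (Finset.mem_coe.1 hy)).2.1
      exact Prod.ext hxy (hx'.trans hy'.symm)
    rw [e3]
    refine (hM t s ht2 hts _ fun p hp => ?_).trans (by linarith)
    obtain ⟨⟨q, k⟩, hc, rfl⟩ := Finset.mem_image.1 hp
    obtain ⟨hk, hk1, hk2⟩ := (Finset.mem_filter.1 hc).2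
    simp only at hk
    subst hk
    rw [tQ_zero] at hk1 hk2
    exact ⟨hk1, hk2⟩
  have hu10 : ∀ c, 0 ≤ u1 c := by
    intro c
    simp only [hu1]
    split_ifs
    · exact norm_nonneg _
    · exact le_rfl
  have hu1s : Summable u1 := summable_of_sum_le hu10 hu1_le
  have hu1t : ∑' c, u1 c ≤ C * (d + C1 / t) := hu1s.tsum_le_of_sum_le hu1_le
  have hu2s : Summable u2 := by
    refine Summable.of_nonneg_of_le (fun c => ?_) (fun c => ?_) h1
    · simp only [hu2]
      split_ifs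
      · exact le_rfl
      · exact norm_nonneg _
      · exact le_rfl
    · simp only [hu2]
      split_ifs
      · exact le_rfl
      · exact le_rfl
      · exact le_rfl
      · exact norm_nonneg _
  have e : PS w tQ s - PS w tQ t = ∑' c, ((if tQ c ≤ s then w c else 0) -
      (if tQ c ≤ t then w c else 0)) := by
    unfold PS
    exact ((summ_ps hs s).tsum_sub (summ_ps hs t)).symm
  rw [e]
  refine (tsum_of_norm_bounded (hu1s.add hu2s).hasSum fun c => ?_).trans ?_
  · simp only [hu1, hu2]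
    by_cases h8 : tQ c ≤ t
    · rw [if_pos h8, if_pos (h8.trans hts), sub_self, norm_zero, if_neg (not_lt.2 h8), add_zero]
      split_ifs
      · exact norm_nonneg _
      · exact le_rfl
    · rw [if_neg h8, sub_zero, if_pos (not_le.1 h8)]
      by_cases h9 : tQ c ≤ s
      · rw [if_pos h9]
        by_cases h11 : c.2 = 0
        · rw [if_pos ⟨h11, not_le.1 h8, h9⟩, if_pos h11, add_zero]
        · rw [if_neg fun h => h11 h.1, if_neg h11, zero_add]
      · rw [if_neg h9, norm_zero, if_neg fun h => h9 h.2.2, zero_add]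
        exact h10 c
  · rw [hu1s.tsum_add hu2s]
    have h11 : C * (d + C1 / t) ≤ η / 2 := by
      have h12 : C * d ≤ η / 4 := by
        calc C * d ≤ (C + 1) * d := mul_le_mul_of_nonneg_right (by linarith) hd0.le
          _ = η / 4 := by
            rw [hd]
            field_simp
      rw [mul_add]
      linarith
    have h12 : ∑' c, u2 c ≤ η / 2 := h5.le
    linarith

end

section
variable {A : Nat.Primes × ℕ → ℂ} {n : ℕ} {C : ℝ} {s₀ : ℂ}

/-- the terms at the edge -/
noncomputable def wA (A : Nat.Primes × ℕ → ℂ) (s₀ : ℂ) (c : Nat.Primes × ℕ) : ℂ :=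
  A c * ((Qc c : ℕ) : ℂ) ^ (-s₀)

theorem wA_norm (c : Nat.Primes × ℕ) : ‖wA A s₀ c‖ = ‖A c‖ * (Qc c : ℝ) ^ (-s₀.re) :=
  term_norm c s₀

theorem wA_zero (h : CB A n C) (hs : s₀.re = n + 1) (p : Nat.Primes) :
    ‖wA A s₀ (p, 0)‖ ≤ C / ((p : ℕ) : ℝ) := by
  have hp0 : (0 : ℝ) < ((p : ℕ) : ℝ) := by exact_mod_cast p.2.pos
  rw [wA_norm, Qc_zero, hs]
  refine (mul_le_mul_of_nonneg_right (h.h0 p) (by positivity)).trans (le_of_eq ?_)
  rw [mul_assoc, ← Real.rpow_natCast, ← Real.rpow_add hp0]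
  have e : (n : ℝ) + -((n : ℝ) + 1) = -1 := by ring
  rw [e, Real.rpow_neg_one]
  rfl

theorem wA_tail (h : CB A n C) (hs : s₀.re = n + 1) :
    Summable fun c : Nat.Primes × ℕ => if c.2 = 0 then 0 else ‖wA A s₀ c‖ := by
  have s1 := summ_ind C (-2) h.c0 (by norm_num) 1
  have s2 := (summable_Q (1 / 2) (by norm_num) 2 (by norm_num)).mul_left C
  refine Summable.of_nonneg_of_le (fun c => ?_) (fun c => ?_) (s1.add s2)
  · split_ifs
    · exact le_rfl
    · exact norm_nonneg _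
  · obtain ⟨p, k⟩ := c
    have hp0 : (0 : ℝ) < ((p : ℕ) : ℝ) := by exact_mod_cast p.2.pos
    change (if k = 0 then 0 else ‖wA A s₀ (p, k)‖) ≤
      (C * ((p : ℕ) : ℝ) ^ (-2 : ℝ)) * (if k = 1 then (1 : ℝ) else 0) +
      C * (if 2 ≤ k then (Qc (p, k) : ℝ) ^ (-(1 / 2 : ℝ)) else 0)
    rcases Nat.lt_or_ge k 2 with hk | hk
    · rcases Nat.lt_or_ge k 1 with hk' | hk'
      · obtain rfl : k = 0 := by omega
        simp
      · obtain rfl : k = 1 := by omega
        rw [if_neg (by norm_num), if_pos rfl, if_neg (by norm_num), mul_one, mul_zero, add_zero,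
          wA_norm]
        exact e1_bound h p hs.ge
    · rw [if_neg (by omega), if_neg (by omega), if_pos hk, mul_zero, zero_add, wA_norm]
      exact e2_bound h (p, k) hs.ge

theorem wA_term (c : Nat.Primes × ℕ) (ε : ℝ) :
    wA A s₀ c * (Real.exp (-(ε * tQ c)) : ℂ) = A c * ((Qc c : ℕ) : ℂ) ^ (-(s₀ + (ε : ℂ))) := by
  have hQ : ((Qc c : ℕ) : ℂ) ≠ 0 := by exact_mod_cast (Qc_pos c).ne'
  unfold wA
  rw [mul_assoc]
  congr 1
  rw [neg_add, Complex.cpow_add _ _ hQ]
  congr 1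
  rw [Complex.cpow_def_of_ne_zero hQ, Complex.ofReal_exp]
  congr 1
  unfold tQ
  rw [← Complex.ofReal_natCast, ← Complex.ofReal_log (Nat.cast_nonneg _)]
  push_cast
  ring

theorem wA_summ (h : CB A n C) (hs : s₀.re = n + 1) (ε : ℝ) (hε : 0 < ε) :
    Summable fun c => ‖wA A s₀ c‖ * Real.exp (-(ε * tQ c)) := by
  have h1 := sumA h (σ := (n : ℝ) + 1 + ε) (by linarith)
  refine h1.congr fun c => ?_
  have h2 := congrArg norm (wA_term (A := A) (s₀ := s₀) c ε)
  rw [norm_mul, Complex.norm_real, Real.norm_eq_abs, Real.abs_exp, term_norm] at h2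
  rw [h2, Complex.add_re, Complex.ofReal_re, hs]

theorem wA_DS (ε : ℝ) : DS (wA A s₀) tQ ε = ∑' c, A c * ((Qc c : ℕ) : ℂ) ^ (-(s₀ + (ε : ℂ))) :=
  tsum_congr fun c => wA_term c ε

/-- **The edge of convergence.** -/
theorem edge (h : CB A n C) (hs : s₀.re = n + 1) (ρ : ℂ) {c : ℂ} (hc : c ≠ 0) :
    Tendsto (fun t : ℝ => Complex.exp (PS (wA A s₀) tQ t - ρ * (Real.log t : ℂ))) atTop (𝓝 c) ↔
      Tendsto (fun t : ℝ => Complex.exp (DS (wA A s₀) tQ t⁻¹ - ρ * (Real.log t : ℂ))) atTop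
        (𝓝 (c * Complex.exp (-(ρ * (Real.eulerMascheroniConstant : ℂ))))) :=
  core_exp (wA_summ h hs) tQ_nonneg
    (slow_pp h.c0 (wA_zero h hs) (wA_tail h hs) (wA_summ h hs)) ρ hc

/-- **The edge of convergence, additive form.** -/
theorem edge_add (h : CB A n C) (hs : s₀.re = n + 1) (ρ S : ℂ) :
    Tendsto (fun t : ℝ => PS (wA A s₀) tQ t - ρ * (Real.log t : ℂ)) atTop (𝓝 S) ↔
      Tendsto (fun t : ℝ => DS (wA A s₀) tQ t⁻¹ - ρ * (Real.log t : ℂ)) atTop
        (𝓝 (S - ρ * (Real.eulerMascheroniConstant : ℂ))) :=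
  core (wA_summ h hs) tQ_nonneg
    (slow_pp h.c0 (wA_zero h hs) (wA_tail h hs) (wA_summ h hs)) ρ S

end

end Pool.Agent.W5h21.TB
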