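import Pool.Agent.W5h21.TB.Fam

/-! The sums of the fibre averages over the primes. -/

set_option autoImplicit false

namespace Pool.Agent.W5h21.TB

open NumberField IsDedekindDomain Filter Topology
open Pool.Agent.H126R3 (Qc Qc_pos)
open Pool.Agent.W385.CP
open Pool.Agent.W353.FB (Fibration ValueAt)
open Pool.Agent.Y707.PH

/-- coefficients which agree at the primes -/
theorem PS_cmp {w w' : Nat.Primes × ℕ → ℂ} (h : ∀ p : Nat.Primes, w (p, 0) = w' (p, 0))
    (h1 : Summable fun c : Nat.Primes × ℕ => if c.2 = 0 then 0 else ‖w c‖)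
    (h1' : Summable fun c : Nat.Primes × ℕ => if c.2 = 0 then 0 else ‖w' c‖)
    (hs : ∀ ε : ℝ, 0 < ε → Summable fun i => ‖w i‖ * Real.exp (-(ε * tQ i)))
    (hs' : ∀ ε : ℝ, 0 < ε → Summable fun i => ‖w' i‖ * Real.exp (-(ε * tQ i))) :
    ∃ L : ℂ, Tendsto (fun t : ℝ => PS w tQ t - PS w' tQ t) atTop (𝓝 L) := by
  classical
  refine ⟨∑' c, (w c - w' c), ?_⟩
  have h2 : Tendsto (fun t : ℝ => ∑' c, if tQ c ≤ t then w c - w' c else 0) atTop
      (𝓝 (∑' c, (w c - w' c))) := by
    refine tendsto_tsum_of_dominated_convergence (h1.add h1') (fun c => ?_)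
      (Eventually.of_forall fun t c => ?_)
    · refine tendsto_const_nhds.congr' ?_
      filter_upwards [eventually_ge_atTop (tQ c)] with t ht
      rw [if_pos ht]
    · have h3 : ‖w c - w' c‖ ≤ (if c.2 = 0 then 0 else ‖w c‖) + (if c.2 = 0 then 0 else ‖w' c‖) := by
        obtain ⟨p, k⟩ := c
        simp only
        by_cases hk : k = 0
        · subst hk
          rw [h p, sub_self, norm_zero, if_pos rfl, add_zero]
        · rw [if_neg hk, if_neg hk]
          exact norm_sub_le _ _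
      by_cases hc : tQ c ≤ t
      · rw [if_pos hc]
        exact h3
      · rw [if_neg hc, norm_zero]
        exact (norm_nonneg _).trans h3
  refine h2.congr fun t => ?_
  unfold PS
  rw [← (summ_ps hs t).tsum_sub (summ_ps hs' t)]
  refine tsum_congr fun c => ?_
  by_cases hc : tQ c ≤ t
  · rw [if_pos hc, if_pos hc, if_pos hc]
  · rw [if_neg hc, if_neg hc, if_neg hc, sub_zero]

section
variable (F : Type) [Field F] [NumberField F]

instance finRes_int : FinRes (𝓞 F) where
  fin y := by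
    have h1 : Algebra.FiniteType ℤ (𝓞 F) := inferInstance
    have h2 : Algebra.FiniteType ℤ (Rs y) :=
      Algebra.FiniteType.of_surjective (Ideal.Quotient.mkₐ ℤ y.asIdeal) Ideal.Quotient.mk_surjective
    exact Pool.Agent.H126R3.finite_of_finiteType (Rs y)

instance homBd_int : HomBd (𝓞 F) 0 (Module.finrank ℤ (𝓞 F)) where
  fin k _ _ := (hom_int F k).1
  bd k _ _ := by
    rw [pow_zero, mul_one]
    exact (hom_int F k).2

/-- the closed points of the spectrum of the ring of integers -/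
noncomputable def eqF : HeightOneSpectrum (𝓞 F) ≃ MaximalSpectrum (𝓞 F) :=
  HeightOneSpectrum.equivMaximalSpectrum (RingOfIntegers.not_isField F)

variable {F}

theorem eqF_ideal (v : HeightOneSpectrum (𝓞 F)) : (eqF F v).asIdeal = v.asIdeal := rfl

theorem qn_eqF (v : HeightOneSpectrum (𝓞 F)) : qn (eqF F v) = Ideal.absNorm v.asIdeal := rfl

end

section
variable {K : Type} [Field K] [NumberField K] {f : Fibration K}
  {R : Finset (HeightOneSpectrum (𝓞 K))} {F : Type} [Field F] [NumberField F] [Algebra K F] {C : ℝ}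

variable (K R) in
/-- the prime is not above `R` -/
def Gd (v : HeightOneSpectrum (𝓞 F)) : Prop :=
  ∀ u ∈ R, v.asIdeal.comap (algebraMap (𝓞 K) (𝓞 F)) ≠ u.asIdeal

open Classical in
variable (K R) in
/-- the coefficients at the primes -/
noncomputable def trb (b : HeightOneSpectrum (𝓞 F) → ℝ) (y : MaximalSpectrum (𝓞 F)) (j : ℕ) : ℂ :=
  if j = 1 ∧ Gd K R ((eqF F).symm y) then ((-b ((eqF F).symm y) : ℝ) : ℂ) else 0

theorem value_av (hf : IsLisse f R C) {v : HeightOneSpectrum (𝓞 F)} (hv : Gd K R v) {z : ℝ}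
    (hz : ValueAt (averageValue f) v z) {κ : Type} [Field κ] [Finite κ] (φ : 𝓞 F →+* κ)
    (hφ : RingHom.ker φ = v.asIdeal) (hκ : Nat.card κ = Ideal.absNorm v.asIdeal) :
    Off R (φ.comp (algebraMap (𝓞 K) (𝓞 F))) ∧ z = -av f (φ.comp (algebraMap (𝓞 K) (𝓞 F))) := by
  have h1 : Off R (φ.comp (algebraMap (𝓞 K) (𝓞 F))) := by
    intro u hu h
    apply hv u hu
    rw [← h, ← hφ]
    rfl
  obtain ⟨A, h2, h3⟩ := hz κ φ hφ hκ
  exact ⟨h1, by rw [h3, av_eq hf h1 h2]⟩

theorem b_le (hf : IsLisse f R C) {v : HeightOneSpectrum (𝓞 F)} (hv : Gd K R v) {z : ℝ}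
    (hz : ValueAt (averageValue f) v z) : |z| ≤ |C| := by
  let _ := fieldRs (eqF F v)
  have hfin : Finite (Rs (eqF F v)) := inferInstance
  obtain ⟨h1, h2⟩ := value_av hf hv hz (κ := Rs (eqF F v)) (Ideal.Quotient.mk (eqF F v).asIdeal)
    (by rw [Ideal.mk_ker]; rfl) rfl
  rw [h2, abs_neg]
  exact (av_le hf h1).trans (le_abs_self C)

variable {b : HeightOneSpectrum (𝓞 F) → ℝ}

theorem trb_norm (hf : IsLisse f R C) (hb : ∀ v, Gd K R v → ValueAt (averageValue f) v (b v))
    (y : MaximalSpectrum (𝓞 F)) (m : ℕ) :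
    ‖trb K R b y (m + 1)‖ ≤ |C| * (((qn y : ℕ) : ℝ) ^ (m + 1)) ^ (0 : ℝ) := by
  rw [Real.rpow_zero, mul_one]
  unfold trb
  split_ifs with h
  · rw [Complex.norm_real, Real.norm_eq_abs, abs_neg]
    exact b_le hf h.2 (hb _ h.2)
  · rw [norm_zero]
    exact abs_nonneg _

theorem few_univ : Few (Set.univ : Set (MaximalSpectrum (𝓞 F))) 0 (Module.finrank ℤ (𝓞 F)) := by
  intro c
  rw [pow_zero, mul_one]
  have h1 := hom_int F (Fc c)
  have := h1.1
  have h2 : Nat.card {ψ : 𝓞 F →+* Fc c // ptH ψ ∈ (Set.univ : Set (MaximalSpectrum (𝓞 F)))} ≤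
      Nat.card (𝓞 F →+* Fc c) :=
    Nat.card_le_card_of_injective (fun ψ => ψ.1) Subtype.val_injective
  exact_mod_cast h2.trans h1.2

theorem trb_sum (b : HeightOneSpectrum (𝓞 F) → ℝ) (s : ℂ) {T : ℝ} (hT : 0 < T) :
    (∑ᶠ (v : HeightOneSpectrum (𝓞 F))
      (_ : (Ideal.absNorm v.asIdeal : ℝ) ≤ T ∧ Gd K R v),
      (b v : ℂ) * ((Ideal.absNorm v.asIdeal : ℕ) : ℂ) ^ (-s)) =
      -PS (wA (Ac (trb K R b)) s) tQ (Real.log T) := by
  classical
  have h1 := PS_eq (B := 𝓞 F) (tr := trb K R b) 0 (Module.finrank ℤ (𝓞 F)) s hT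
  have hinj : Function.Injective (fun v : HeightOneSpectrum (𝓞 F) => (eqF F v, 0)) := by
    intro v v' h
    exact (eqF F).injective (Prod.mk.inj h).1
  have h2 := (hinj.hasSum_iff (f := fun z : MaximalSpectrum (𝓞 F) × ℕ =>
    if (Qc (kp z) : ℝ) ≤ T then tm (trb K R b) s z else 0) (fun z hz => by
      obtain ⟨y, m⟩ := z
      have hm : m ≠ 0 := by
        rintro rfl
        exact hz ⟨(eqF F).symm y, by simp⟩
      have h3 : trb K R b y (m + 1) = 0 := by
        unfold trb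
        rw [if_neg fun h => hm (by omega)]
      split_ifs
      · unfold tm
        rw [h3, zero_mul, zero_div]
      · rfl)).2 h1
  have h3 : ∀ v : HeightOneSpectrum (𝓞 F), ((fun z : MaximalSpectrum (𝓞 F) × ℕ =>
      if (Qc (kp z) : ℝ) ≤ T then tm (trb K R b) s z else 0) ∘
      (fun v : HeightOneSpectrum (𝓞 F) => (eqF F v, 0))) v =
      -(if (Ideal.absNorm v.asIdeal : ℝ) ≤ T ∧ Gd K R v then
        (b v : ℂ) * ((Ideal.absNorm v.asIdeal : ℕ) : ℂ) ^ (-s) else 0) := by
    intro v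
    have e1 : Qc (kp (eqF F v, 0)) = Ideal.absNorm v.asIdeal := by
      rw [Qc_kp]
      simp only [zero_add, pow_one]
      exact qn_eqF v
    simp only [Function.comp_apply]
    rw [e1]
    by_cases h4 : (Ideal.absNorm v.asIdeal : ℝ) ≤ T
    · rw [if_pos h4]
      unfold tm trb
      simp only [zero_add, Equiv.symm_apply_apply, qn_eqF]
      by_cases h5 : Gd K R v
      · rw [if_pos ⟨trivial, h5⟩, if_pos ⟨h4, h5⟩]
        push_cast
        simp
      · rw [if_neg fun h => h5 h.2, if_neg fun h => h5 h.2]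
        simp
    · rw [if_neg h4, if_neg fun h => h4 h.1, neg_zero]
  rw [funext h3] at h2
  have h4 := h2.neg
  simp only [neg_neg] at h4
  have hfin : {v : HeightOneSpectrum (𝓞 F) | (Ideal.absNorm v.asIdeal : ℝ) ≤ T}.Finite := by
    have h5 := finY (B := 𝓞 F) 0 (Module.finrank ℤ (𝓞 F)) T
    exact h5.preimage (f := eqF F) (eqF F).injective.injOn
  have hfin' : {v : HeightOneSpectrum (𝓞 F) | (Ideal.absNorm v.asIdeal : ℝ) ≤ T ∧ Gd K R v}.Finite :=
    hfin.subset fun v hv => hv.1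
  have h5 := hasSum_sum_of_ne_finset_zero (L := SummationFilter.unconditional _)
    (s := hfin'.toFinset)
    (f := fun v : HeightOneSpectrum (𝓞 F) => if (Ideal.absNorm v.asIdeal : ℝ) ≤ T ∧ Gd K R v then
        (b v : ℂ) * ((Ideal.absNorm v.asIdeal : ℕ) : ℂ) ^ (-s) else 0) fun v hv => by
      rw [Set.Finite.mem_toFinset] at hv
      exact if_neg hv
  rw [← h4.unique h5 |>.symm]
  refine (finsum_mem_eq_finite_toFinset_sum _ hfin').trans ?_
  refine Finset.sum_congr rfl fun v hv => ?_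
  rw [Set.Finite.mem_toFinset] at hv
  have hv' : (Ideal.absNorm v.asIdeal : ℝ) ≤ T ∧ Gd K R v := hv
  rw [if_pos hv']

end

end Pool.Agent.W5h21.TB
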