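import Mathlib

/-! A Tauberian theorem of Hardy and Littlewood for slowly oscillating functions (method of Karamata). -/

set_option autoImplicit false

namespace Pool.Agent.W5h21.TB

open Filter Topology MeasureTheory Set

/-- slowly oscillating at infinity, on the multiplicative scale -/
def Slow (g : ℝ → ℂ) : Prop :=
  ∀ η : ℝ, 0 < η → ∃ l : ℝ, 1 < l ∧ ∃ t0 : ℝ, 0 < t0 ∧ ∀ t s : ℝ, t0 ≤ t → t ≤ s → s ≤ l * t →
    ‖g s - g t‖ ≤ η

/-- the Laplace mean -/
noncomputable def LM (g : ℝ → ℂ) (t : ℝ) : ℂ := ∫ x in Ioi (0 : ℝ), g (x * t) * (Real.exp (-x) : ℂ)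

section
variable {g : ℝ → ℂ} {l t0 : ℝ}

theorem slow_iter (hl : 1 < l) (ht0 : 0 < t0)
    (h : ∀ t s : ℝ, t0 ≤ t → t ≤ s → s ≤ l * t → ‖g s - g t‖ ≤ 1) (k : ℕ) :
    ∀ t s : ℝ, t0 ≤ t → t ≤ s → s ≤ l ^ k * t → ‖g s - g t‖ ≤ k := by
  induction k with
  | zero =>
    intro t s h1 h2 h3
    have : s = t := le_antisymm (by simpa using h3) h2
    rw [this, sub_self, norm_zero]
    exact_mod_cast le_rfl
  | succ k ih =>
    intro t s h1 h2 h3
    have ht : 0 < t := lt_of_lt_of_le ht0 h1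
    have hl0 : 0 < l := by linarith
    rcases le_total s (l * t) with h4 | h4
    · refine (h t s h1 h2 h4).trans ?_
      push_cast
      have : (0 : ℝ) ≤ k := Nat.cast_nonneg k
      linarith
    · have h5 : t ≤ s / l := by
        rw [le_div_iff₀ hl0, mul_comm]
        exact h4
      have h6 : s / l ≤ l ^ k * t := by
        rw [div_le_iff₀ hl0]
        calc s ≤ l ^ (k + 1) * t := h3
          _ = l ^ k * t * l := by ring
      have h7 := ih t (s / l) h1 h5 h6
      have h8 : s / l ≤ s := by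
        rw [div_le_iff₀ hl0]
        nlinarith
      have h9 : s ≤ l * (s / l) := by
        rw [mul_div_cancel₀ _ hl0.ne']
      have h10 := h (s / l) s (h1.trans h5) h8 h9
      have h11 : g s - g t = (g s - g (s / l)) + (g (s / l) - g t) := by ring
      rw [h11]
      refine (norm_add_le _ _).trans ?_
      push_cast
      linarith

theorem slow_log (hl : 1 < l) (ht0 : 0 < t0)
    (h : ∀ t s : ℝ, t0 ≤ t → t ≤ s → s ≤ l * t → ‖g s - g t‖ ≤ 1) {t s : ℝ} (h1 : t0 ≤ t)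
    (h2 : t ≤ s) : ‖g s - g t‖ ≤ 1 + (Real.log l)⁻¹ * Real.log (s / t) := by
  have ht : 0 < t := lt_of_lt_of_le ht0 h1
  have hs : 0 < s := lt_of_lt_of_le ht h2
  have hL : 0 < Real.log l := Real.log_pos hl
  have hst : 1 ≤ s / t := by rwa [le_div_iff₀ ht, one_mul]
  have h0 : 0 ≤ Real.log (s / t) := Real.log_nonneg hst
  set k := ⌈(Real.log l)⁻¹ * Real.log (s / t)⌉₊ with hk
  have h3 : (Real.log l)⁻¹ * Real.log (s / t) ≤ k := Nat.le_ceil _
  have h4 : s ≤ l ^ k * t := by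
    rw [← div_le_iff₀ ht]
    have h5 : Real.log (s / t) ≤ Real.log (l ^ k) := by
      rw [Real.log_pow]
      rw [inv_mul_le_iff₀ hL] at h3
      linarith
    exact (Real.log_le_log_iff (by positivity) (by positivity)).1 h5
  refine (slow_iter hl ht0 h k t s h1 h2 h4).trans ?_
  have := (Nat.ceil_lt_add_one (show 0 ≤ (Real.log l)⁻¹ * Real.log (s / t) by positivity)).le
  rw [← hk] at this
  linarith

theorem log_le_two_sqrt {y : ℝ} (hy : 0 < y) : Real.log y⁻¹ ≤ 2 * y ^ (-(1 / 2 : ℝ)) := by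
  have h1 : Real.log (y ^ (-(1 / 2 : ℝ))) ≤ y ^ (-(1 / 2 : ℝ)) :=
    (Real.log_le_sub_one_of_pos (by positivity)).trans (by linarith)
  rw [Real.log_rpow hy] at h1
  rw [Real.log_inv]
  linarith

/-- the majorant -/
noncomputable def mj (B c x : ℝ) : ℝ := B * Real.exp (-x) + c * (Real.exp (-x) * x ^ ((2 : ℝ) - 1)) +
  c * (2 * (Real.exp (-x) * x ^ ((1 / 2 : ℝ) - 1)))

theorem mj_int (B c : ℝ) : IntegrableOn (mj B c) (Ioi 0) := by
  have h1 : IntegrableOn (fun x : ℝ => Real.exp (-x)) (Ioi 0) := integrableOn_exp_neg_Ioi 0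
  have h2 := Real.GammaIntegral_convergent (s := 2) (by norm_num)
  have h3 := Real.GammaIntegral_convergent (s := 1 / 2) (by norm_num)
  exact ((h1.const_mul B).add (h2.const_mul c)).add ((h3.const_mul 2).const_mul c)

theorem mj_eq (B c : ℝ) {x : ℝ} (hx : 0 < x) : mj B c x =
    (B + c * (x + 2 * x ^ (-(1 / 2 : ℝ)))) * Real.exp (-x) := by
  unfold mj
  have e1 : x ^ ((2 : ℝ) - 1) = x := by norm_num
  have e2 : ((1 / 2 : ℝ) - 1) = -(1 / 2 : ℝ) := by norm_num
  rw [e1, e2]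
  ring

theorem slow_diff (hl : 1 < l) (ht0 : 0 < t0)
    (h : ∀ t s : ℝ, t0 ≤ t → t ≤ s → s ≤ l * t → ‖g s - g t‖ ≤ 1) {B : ℝ}
    (hB : ∀ t, 0 < t → t ≤ t0 → ‖g t‖ ≤ B) {t x : ℝ} (ht : t0 ≤ t) (hx : 0 < x) :
    ‖g t - g (x * t)‖ ≤ (‖g t0‖ + 1 + B) + (Real.log l)⁻¹ * (x + 2 * x ^ (-(1 / 2 : ℝ))) := by
  have hL : 0 < (Real.log l)⁻¹ := inv_pos.2 (Real.log_pos hl)
  have ht' : 0 < t := lt_of_lt_of_le ht0 ht
  have hB0 : 0 ≤ B := (norm_nonneg _).trans (hB t0 ht0 le_rfl)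
  have hg0 : 0 ≤ ‖g t0‖ := norm_nonneg _
  have hxr : 0 < x ^ (-(1 / 2 : ℝ)) := by positivity
  rcases le_total 1 x with h1 | h1
  · have h2 : t ≤ x * t := by nlinarith
    have h3 := slow_log hl ht0 h ht h2
    rw [norm_sub_rev]
    refine h3.trans ?_
    rw [mul_div_assoc, div_self ht'.ne', mul_one]
    have h4 : Real.log x ≤ x := (Real.log_le_sub_one_of_pos hx).trans (by linarith)
    have h5 : (Real.log l)⁻¹ * Real.log x ≤ (Real.log l)⁻¹ * (x + 2 * x ^ (-(1 / 2 : ℝ))) :=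
      mul_le_mul_of_nonneg_left (by linarith) hL.le
    linarith
  · rcases le_total t0 (x * t) with h2 | h2
    · have h3 : x * t ≤ t := by nlinarith
      have h4 := slow_log hl ht0 h h2 h3
      have e : t / (x * t) = x⁻¹ := by field_simp
      rw [e] at h4
      have h5 := log_le_two_sqrt hx
      have h6 : (Real.log l)⁻¹ * Real.log x⁻¹ ≤ (Real.log l)⁻¹ * (x + 2 * x ^ (-(1 / 2 : ℝ))) :=
        mul_le_mul_of_nonneg_left (by linarith) hL.le
      linarith
    · have h3 := slow_log hl ht0 h le_rfl ht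
      have h4 := hB (x * t) (by positivity) h2
      have h5 : Real.log (t / t0) ≤ Real.log x⁻¹ := by
        apply Real.log_le_log (by positivity)
        rw [div_le_iff₀ ht0, inv_mul_eq_div, le_div_iff₀ hx]
        linarith
      have h6 := log_le_two_sqrt hx
      have h7 : (Real.log l)⁻¹ * Real.log (t / t0) ≤
          (Real.log l)⁻¹ * (x + 2 * x ^ (-(1 / 2 : ℝ))) :=
        mul_le_mul_of_nonneg_left (by linarith) hL.le
      have h8 : ‖g t‖ ≤ ‖g t - g t0‖ + ‖g t0‖ := by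
        have := norm_add_le (g t - g t0) (g t0)
        rwa [sub_add_cancel] at this
      refine (norm_sub_le _ _).trans ?_
      linarith

theorem int_exp : ∫ x in Ioi (0 : ℝ), (Real.exp (-x) : ℂ) = 1 := by
  rw [integral_complex_ofReal, integral_exp_neg_Ioi_zero, Complex.ofReal_one]

theorem intble_exp : IntegrableOn (fun x : ℝ => (Real.exp (-x) : ℂ)) (Ioi 0) :=
  (integrableOn_exp_neg_Ioi 0).ofReal

/-- a slowly oscillating function with bounded Laplace means is bounded -/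
theorem bounded (hm : Measurable g) (hloc : ∀ a : ℝ, ∃ B : ℝ, ∀ t, 0 < t → t ≤ a → ‖g t‖ ≤ B)
    (hs : Slow g) {M t1 : ℝ} (hM : ∀ t, t1 ≤ t → ‖LM g t‖ ≤ M) :
    ∃ B : ℝ, ∀ t, 0 < t → ‖g t‖ ≤ B := by
  obtain ⟨l, hl, t0, ht0, h⟩ := hs 1 one_pos
  obtain ⟨B, hB⟩ := hloc t0
  obtain ⟨B', hB'⟩ := hloc (max t0 t1)
  set c := (Real.log l)⁻¹ with hc
  set B1 := ‖g t0‖ + 1 + B with hB1
  refine ⟨max B' ((∫ x in Ioi (0 : ℝ), mj B1 c x) + M), fun t ht => ?_⟩
  rcases le_total t (max t0 t1) with h1 | h1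
  · exact (hB' t ht h1).trans (le_max_left _ _)
  · refine le_trans ?_ (le_max_right _ _)
    have ht0' : t0 ≤ t := (le_max_left _ _).trans h1
    have ht1' : t1 ≤ t := (le_max_right _ _).trans h1
    have hd : ∀ x ∈ Ioi (0 : ℝ), ‖(g t - g (x * t)) * (Real.exp (-x) : ℂ)‖ ≤ mj B1 c x := by
      intro x hx
      rw [norm_mul, mj_eq B1 c hx, Complex.norm_real, Real.norm_eq_abs, Real.abs_exp]
      exact mul_le_mul_of_nonneg_right (slow_diff hl ht0 h hB ht0' hx) (Real.exp_nonneg _)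
    have hmeas : Measurable (fun x : ℝ => (g t - g (x * t)) * (Real.exp (-x) : ℂ)) := by
      fun_prop
    have hi : IntegrableOn (fun x : ℝ => (g t - g (x * t)) * (Real.exp (-x) : ℂ)) (Ioi 0) := by
      refine Integrable.mono' (mj_int B1 c) hmeas.aestronglyMeasurable ?_
      filter_upwards [ae_restrict_mem measurableSet_Ioi] with x hx using hd x hx
    have h2 : ∫ x in Ioi (0 : ℝ), (g t - g (x * t)) * (Real.exp (-x) : ℂ) = g t - LM g t := by
      have e1 : ∀ x : ℝ, g (x * t) * (Real.exp (-x) : ℂ) = g t * (Real.exp (-x) : ℂ) -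
          (g t - g (x * t)) * (Real.exp (-x) : ℂ) := fun x => by ring
      unfold LM
      simp only [e1]
      rw [integral_sub (intble_exp.const_mul _) hi, integral_const_mul, int_exp, mul_one]
      ring
    have h3 : ‖g t - LM g t‖ ≤ ∫ x in Ioi (0 : ℝ), mj B1 c x := by
      rw [← h2]
      refine norm_integral_le_of_norm_le (mj_int B1 c) ?_
      filter_upwards [ae_restrict_mem measurableSet_Ioi] with x hx using hd x hx
    have h4 : ‖g t‖ ≤ ‖g t - LM g t‖ + ‖LM g t‖ := by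
      have := norm_add_le (g t - LM g t) (LM g t)
      rwa [sub_add_cancel] at this
    linarith [hM t ht1']

end

end Pool.Agent.W5h21.TB
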