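import Pool.Agent.W5h21.TB.Slow

/-! The Tauberian theorem for slowly oscillating functions. -/

set_option autoImplicit false

namespace Pool.Agent.W5h21.TB

open Filter Topology MeasureTheory Set

/-- the weighted Laplace mean -/
noncomputable def JM (g : ℝ → ℂ) (φ : ℝ → ℝ) (t : ℝ) : ℂ :=
  ∫ x in Ioi (0 : ℝ), g (x * t) * ((Real.exp (-x) * φ (Real.exp (-x)) : ℝ) : ℂ)

/-- the mass of the weight -/
noncomputable def mass (φ : ℝ → ℝ) : ℝ := ∫ x in Ioi (0 : ℝ), Real.exp (-x) * φ (Real.exp (-x))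

section
variable {g : ℝ → ℂ} {B : ℝ} {S : ℂ}

theorem exp_mem {x : ℝ} (hx : x ∈ Ioi (0 : ℝ)) : Real.exp (-x) ∈ Icc (0 : ℝ) 1 := by
  have h : 0 < x := hx
  exact ⟨(Real.exp_pos _).le, Real.exp_le_one_iff.2 (by linarith)⟩

theorem bdd_cont {φ : ℝ → ℝ} (hφ : Continuous φ) : ∃ M : ℝ, 0 ≤ M ∧ ∀ y ∈ Icc (0 : ℝ) 1, |φ y| ≤ M := by
  obtain ⟨M, hM⟩ := (isCompact_Icc (a := (0 : ℝ)) (b := 1)).exists_bound_of_continuousOn
    hφ.continuousOn
  exact ⟨M, (norm_nonneg _).trans (hM 0 (by simp)), fun y hy => hM y hy⟩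

theorem JM_int (hm : Measurable g) (hB : ∀ t, 0 < t → ‖g t‖ ≤ B) {φ : ℝ → ℝ} (hφ : Continuous φ)
    {t : ℝ} (ht : 0 < t) :
    IntegrableOn (fun x : ℝ => g (x * t) * ((Real.exp (-x) * φ (Real.exp (-x)) : ℝ) : ℂ))
      (Ioi 0) := by
  obtain ⟨M, hM0, hM⟩ := bdd_cont hφ
  have hmeas : Measurable
      (fun x : ℝ => g (x * t) * ((Real.exp (-x) * φ (Real.exp (-x)) : ℝ) : ℂ)) := by
    have := hφ.measurable
    fun_prop
  refine Integrable.mono' ((integrableOn_exp_neg_Ioi 0).const_mul (B * M))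
    hmeas.aestronglyMeasurable ?_
  filter_upwards [ae_restrict_mem measurableSet_Ioi] with x hx
  have hx' : 0 < x := hx
  rw [norm_mul, Complex.norm_real, Real.norm_eq_abs, abs_mul, Real.abs_exp]
  have h1 := hB (x * t) (by positivity)
  have h2 := hM _ (exp_mem hx)
  have h3 := Real.exp_pos (-x)
  have hB0 : 0 ≤ B := (norm_nonneg _).trans h1
  calc ‖g (x * t)‖ * (Real.exp (-x) * |φ (Real.exp (-x))|) ≤ B * (Real.exp (-x) * M) := by
        gcongr
    _ = B * M * Real.exp (-x) := by ring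

theorem mass_int {φ : ℝ → ℝ} (hφ : Continuous φ) :
    IntegrableOn (fun x : ℝ => Real.exp (-x) * φ (Real.exp (-x))) (Ioi 0) := by
  obtain ⟨M, hM0, hM⟩ := bdd_cont hφ
  have hmeas : Measurable (fun x : ℝ => Real.exp (-x) * φ (Real.exp (-x))) := by
    have := hφ.measurable
    fun_prop
  refine Integrable.mono' ((integrableOn_exp_neg_Ioi 0).const_mul M)
    hmeas.aestronglyMeasurable ?_
  filter_upwards [ae_restrict_mem measurableSet_Ioi] with x hx
  rw [Real.norm_eq_abs, abs_mul, Real.abs_exp]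
  have h2 := hM _ (exp_mem hx)
  have h3 := Real.exp_pos (-x)
  calc Real.exp (-x) * |φ (Real.exp (-x))| ≤ Real.exp (-x) * M := by gcongr
    _ = M * Real.exp (-x) := by ring

theorem JM_mono (k : ℕ) (t : ℝ) :
    JM g (fun y => y ^ k) t = ((k + 1 : ℝ) : ℂ)⁻¹ * LM g (t / (k + 1)) := by
  have hk : (0 : ℝ) < k + 1 := by positivity
  have h1 := integral_comp_mul_left_Ioi
    (fun u : ℝ => g (u * (t / (k + 1))) * (Real.exp (-u) : ℂ)) 0 hk
  rw [mul_zero] at h1
  unfold JM LM
  have h2 : ∀ x : ℝ, g (x * t) * ((Real.exp (-x) * Real.exp (-x) ^ k : ℝ) : ℂ) =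
      g ((k + 1 : ℝ) * x * (t / (k + 1))) * (Real.exp (-((k + 1 : ℝ) * x)) : ℂ) := by
    intro x
    have e1 : (k + 1 : ℝ) * x * (t / (k + 1)) = x * t := by field_simp
    have e2 : Real.exp (-x) * Real.exp (-x) ^ k = Real.exp (-((k + 1 : ℝ) * x)) := by
      rw [← Real.exp_nat_mul, ← Real.exp_add]
      congr 1
      ring
    rw [e1, e2]
  simp only [h2]
  rw [h1, Complex.real_smul]
  push_cast
  rfl

theorem mass_mono (k : ℕ) : mass (fun y => y ^ k) = (k + 1 : ℝ)⁻¹ := by
  have hk : (0 : ℝ) < k + 1 := by positivity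
  have h1 := integral_comp_mul_left_Ioi (fun u : ℝ => Real.exp (-u)) 0 hk
  rw [mul_zero, integral_exp_neg_Ioi_zero] at h1
  unfold mass
  have h2 : ∀ x : ℝ, Real.exp (-x) * Real.exp (-x) ^ k = Real.exp (-((k + 1 : ℝ) * x)) := by
    intro x
    rw [← Real.exp_nat_mul, ← Real.exp_add]
    congr 1
    ring
  simp only [h2]
  rw [h1, smul_eq_mul, mul_one]

theorem JM_poly (hm : Measurable g) (hB : ∀ t, 0 < t → ‖g t‖ ≤ B)
    (hL : Tendsto (LM g) atTop (𝓝 S)) (P : Polynomial ℝ) :
    Tendsto (JM g (fun y => P.eval y)) atTop (𝓝 (S * (mass (fun y => P.eval y) : ℂ))) := by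
  induction P using Polynomial.induction_on' with
  | add p q hp hq =>
    have h1 : mass (fun y => (p + q).eval y) = mass (fun y => p.eval y) +
        mass (fun y => q.eval y) := by
      unfold mass
      rw [← integral_add (mass_int p.continuous) (mass_int q.continuous)]
      refine integral_congr_ae (Eventually.of_forall fun x => ?_)
      simp only [Polynomial.eval_add]
      ring
    rw [h1]
    push_cast
    rw [mul_add]
    refine (hp.add hq).congr' ?_
    filter_upwards [eventually_gt_atTop 0] with t ht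
    unfold JM
    rw [← integral_add (JM_int hm hB p.continuous ht) (JM_int hm hB q.continuous ht)]
    refine integral_congr_ae (Eventually.of_forall fun x => ?_)
    simp only [Polynomial.eval_add]
    push_cast
    ring
  | monomial k a =>
    have h1 : mass (fun y => (Polynomial.monomial k a).eval y) = a * (k + 1 : ℝ)⁻¹ := by
      rw [← mass_mono k]
      unfold mass
      rw [← integral_const_mul]
      refine integral_congr_ae (Eventually.of_forall fun x => ?_)
      simp only [Polynomial.eval_monomial]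
      ring
    have h2 : ∀ t, JM g (fun y => (Polynomial.monomial k a).eval y) t =
        (a : ℂ) * (((k + 1 : ℝ) : ℂ)⁻¹ * LM g (t / (k + 1))) := by
      intro t
      rw [← JM_mono k]
      unfold JM
      rw [← integral_const_mul]
      refine integral_congr_ae (Eventually.of_forall fun x => ?_)
      simp only [Polynomial.eval_monomial]
      push_cast
      ring
    rw [h1, show JM g (fun y => (Polynomial.monomial k a).eval y) = fun t =>
      (a : ℂ) * (((k + 1 : ℝ) : ℂ)⁻¹ * LM g (t / (k + 1))) from funext h2]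
    have h3 : Tendsto (fun t : ℝ => t / ((k : ℝ) + 1)) atTop atTop :=
      tendsto_id.atTop_div_const (by positivity)
    have h4 := ((hL.comp h3).const_mul (((k + 1 : ℝ) : ℂ)⁻¹)).const_mul (a : ℂ)
    refine h4.congr' (Eventually.of_forall fun t => rfl) |>.trans_eq ?_
    congr 1
    push_cast
    ring

theorem JM_sub_le (hm : Measurable g) (hB : ∀ t, 0 < t → ‖g t‖ ≤ B) (hB0 : 0 ≤ B) {φ ψ : ℝ → ℝ}
    (hφ : Continuous φ) (hψ : Continuous ψ) {η : ℝ} (h : ∀ y ∈ Icc (0 : ℝ) 1, |φ y - ψ y| ≤ η)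
    {t : ℝ} (ht : 0 < t) : ‖JM g φ t - JM g ψ t‖ ≤ B * η := by
  unfold JM
  rw [← integral_sub (JM_int hm hB hφ ht) (JM_int hm hB hψ ht)]
  have h1 : B * η = ∫ x in Ioi (0 : ℝ), (B * η) * Real.exp (-x) := by
    rw [integral_const_mul, integral_exp_neg_Ioi_zero, mul_one]
  rw [h1]
  refine norm_integral_le_of_norm_le ((integrableOn_exp_neg_Ioi 0).const_mul _) ?_
  filter_upwards [ae_restrict_mem measurableSet_Ioi] with x hx
  have hx' : 0 < x := hx
  have e : g (x * t) * ((Real.exp (-x) * φ (Real.exp (-x)) : ℝ) : ℂ) -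
      g (x * t) * ((Real.exp (-x) * ψ (Real.exp (-x)) : ℝ) : ℂ) =
      g (x * t) * ((Real.exp (-x) * (φ (Real.exp (-x)) - ψ (Real.exp (-x))) : ℝ) : ℂ) := by
    push_cast
    ring
  rw [e, norm_mul, Complex.norm_real, Real.norm_eq_abs, abs_mul, Real.abs_exp]
  have h2 := hB (x * t) (by positivity)
  have h3 := h _ (exp_mem hx)
  have h4 := Real.exp_pos (-x)
  calc ‖g (x * t)‖ * (Real.exp (-x) * |φ (Real.exp (-x)) - ψ (Real.exp (-x))|) ≤
      B * (Real.exp (-x) * η) := by gcongr
    _ = B * η * Real.exp (-x) := by ring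

theorem mass_sub_le {φ ψ : ℝ → ℝ} (hφ : Continuous φ) (hψ : Continuous ψ) {η : ℝ}
    (h : ∀ y ∈ Icc (0 : ℝ) 1, |φ y - ψ y| ≤ η) : |mass φ - mass ψ| ≤ η := by
  unfold mass
  rw [← integral_sub (mass_int hφ) (mass_int hψ), ← Real.norm_eq_abs]
  have h1 : η = ∫ x in Ioi (0 : ℝ), η * Real.exp (-x) := by
    rw [integral_const_mul, integral_exp_neg_Ioi_zero, mul_one]
  conv_rhs => rw [h1]
  refine norm_integral_le_of_norm_le ((integrableOn_exp_neg_Ioi 0).const_mul _) ?_
  filter_upwards [ae_restrict_mem measurableSet_Ioi] with x hx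
  rw [← mul_sub, Real.norm_eq_abs, abs_mul, Real.abs_exp]
  have h3 := h _ (exp_mem hx)
  have h4 := Real.exp_pos (-x)
  calc Real.exp (-x) * |φ (Real.exp (-x)) - ψ (Real.exp (-x))| ≤ Real.exp (-x) * η := by gcongr
    _ = η * Real.exp (-x) := by ring

theorem JM_cont (hm : Measurable g) (hB : ∀ t, 0 < t → ‖g t‖ ≤ B)
    (hL : Tendsto (LM g) atTop (𝓝 S)) {φ : ℝ → ℝ} (hφ : Continuous φ) :
    Tendsto (JM g φ) atTop (𝓝 (S * (mass φ : ℂ))) := by
  have hB0 : 0 ≤ B := (norm_nonneg _).trans (hB 1 one_pos)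
  rw [Metric.tendsto_nhds]
  intro ε hε
  set η : ℝ := ε / (2 * (B + ‖S‖ + 1)) with hη
  have hd : 0 < B + ‖S‖ + 1 := by positivity
  have hη0 : 0 < η := by positivity
  obtain ⟨P, hP⟩ := exists_polynomial_near_of_continuousOn 0 1 φ hφ.continuousOn η hη0
  have hP' : ∀ y ∈ Icc (0 : ℝ) 1, |φ y - P.eval y| ≤ η := fun y hy => by
    rw [abs_sub_comm]
    exact (hP y hy).le
  have h1 := (JM_poly hm hB hL P).eventually (Metric.ball_mem_nhds _ (half_pos hε))
  filter_upwards [h1, eventually_gt_atTop 0] with t h2 ht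
  rw [dist_eq_norm] at h2
  have h3 := JM_sub_le hm hB hB0 hφ P.continuous hP' ht
  have h4 := mass_sub_le hφ P.continuous hP'
  have h5 : ‖S * (mass (fun y => P.eval y) : ℂ) - S * (mass φ : ℂ)‖ ≤ ‖S‖ * η := by
    rw [← mul_sub, norm_mul, ← Complex.ofReal_sub, Complex.norm_real, Real.norm_eq_abs,
      abs_sub_comm]
    exact mul_le_mul_of_nonneg_left h4 (norm_nonneg _)
  rw [dist_eq_norm]
  have e : JM g φ t - S * (mass φ : ℂ) = (JM g φ t - JM g (fun y => P.eval y) t) +
      (JM g (fun y => P.eval y) t - S * (mass (fun y => P.eval y) : ℂ)) +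
      (S * (mass (fun y => P.eval y) : ℂ) - S * (mass φ : ℂ)) := by ring
  rw [e]
  refine lt_of_le_of_lt (norm_add_le _ _) ?_
  refine lt_of_le_of_lt (add_le_add_left (norm_add_le _ _) _) ?_
  have h6 : B * η + ‖S‖ * η < ε / 2 := by
    have : (B + ‖S‖) * η < (B + ‖S‖ + 1) * η := by nlinarith
    have h7 : (B + ‖S‖ + 1) * η = ε / 2 := by
      rw [hη]
      field_simp
    nlinarith
  linarith

/-- the bump function -/
noncomputable def bump (l y : ℝ) : ℝ := max 0 ((y - Real.exp (-l)) * (Real.exp (-1) - y))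

theorem bump_cont (l : ℝ) : Continuous (bump l) := by
  unfold bump
  fun_prop

theorem bump_nonneg (l y : ℝ) : 0 ≤ bump l y := le_max_left _ _

theorem bump_zero {l x : ℝ} (hl : 1 < l) (h : bump l (Real.exp (-x)) ≠ 0) : 1 ≤ x ∧ x ≤ l := by
  unfold bump at h
  have h1 : 0 < (Real.exp (-x) - Real.exp (-l)) * (Real.exp (-1) - Real.exp (-x)) := by
    by_contra hcon
    exact h (max_eq_left (not_lt.1 hcon))
  rcases pos_and_pos_or_neg_and_neg_of_mul_pos h1 with ⟨h2, h3⟩ | ⟨h2, h3⟩
  · have h4 := Real.exp_lt_exp.1 (sub_pos.1 h2)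
    have h5 := Real.exp_lt_exp.1 (sub_pos.1 h3)
    constructor <;> linarith
  · have h4 := Real.exp_lt_exp.1 (sub_neg.1 h2)
    have h5 := Real.exp_lt_exp.1 (sub_neg.1 h3)
    exfalso
    linarith

theorem bump_mass {l : ℝ} (hl : 1 < l) : 0 < mass (bump l) := by
  set f : ℝ → ℝ := fun x => Real.exp (-x) * bump l (Real.exp (-x)) with hf
  have hc : Continuous f := by
    have := bump_cont l
    fun_prop
  have hsupp : ∀ x, f x ≠ 0 → 1 ≤ x ∧ x ≤ l := by
    intro x hx
    exact bump_zero hl (right_ne_zero_of_mul hx)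
  have hcomp : HasCompactSupport f :=
    HasCompactSupport.intro (isCompact_Icc (a := (1 : ℝ)) (b := l)) fun x hx => by
      by_contra hcon
      exact hx (hsupp x hcon)
  have h1 : 0 < ∫ x, f x := by
    refine hc.integral_pos_of_hasCompactSupport_nonneg_nonzero hcomp
      (fun x => mul_nonneg (Real.exp_nonneg _) (bump_nonneg _ _)) (x := (1 + l) / 2) ?_
    apply mul_ne_zero (Real.exp_ne_zero _)
    apply ne_of_gt
    apply lt_max_of_lt_right
    apply mul_pos
    · rw [sub_pos]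
      exact Real.exp_lt_exp.2 (by linarith)
    · rw [sub_pos]
      exact Real.exp_lt_exp.2 (by linarith)
  have h2 : mass (bump l) = ∫ x, f x := by
    unfold mass
    refine setIntegral_eq_integral_of_forall_compl_eq_zero fun x hx => ?_
    by_contra hcon
    have := (hsupp x hcon).1
    exact hx (by
      rw [mem_Ioi]
      linarith)
  rw [h2]
  exact h1

/-- **The Tauberian theorem of Hardy and Littlewood** for slowly oscillating functions. -/
theorem tauber (hm : Measurable g) (hloc : ∀ a : ℝ, ∃ B : ℝ, ∀ t, 0 < t → t ≤ a → ‖g t‖ ≤ B)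
    (hs : Slow g) (hL : Tendsto (LM g) atTop (𝓝 S)) : Tendsto g atTop (𝓝 S) := by
  -- boundedness
  have h0 : ∀ᶠ t in atTop, ‖LM g t‖ ≤ ‖S‖ + 1 := by
    have := hL.norm.eventually (gt_mem_nhds (show ‖S‖ < ‖S‖ + 1 by linarith))
    exact this.mono fun t ht => ht.le
  obtain ⟨t1, ht1⟩ := eventually_atTop.1 h0
  obtain ⟨B, hB⟩ := bounded hm hloc hs ht1
  rw [Metric.tendsto_nhds]
  intro ε hε
  obtain ⟨l, hl, t0, ht0, h⟩ := hs (ε / 4) (by positivity)
  have hm0 := bump_mass hl
  set m := mass (bump l) with hmdef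
  have h1 := (JM_cont hm hB hL (bump_cont l)).eventually (Metric.ball_mem_nhds _
    (show 0 < m * (ε / 4) by positivity))
  filter_upwards [h1, eventually_ge_atTop t0] with t h2 ht
  rw [dist_eq_norm] at h2
  have ht' : 0 < t := lt_of_lt_of_le ht0 ht
  have hi : IntegrableOn (fun x : ℝ => g t * ((Real.exp (-x) * bump l (Real.exp (-x)) : ℝ) : ℂ))
      (Ioi 0) := (mass_int (bump_cont l)).ofReal.const_mul _
  have h3 : (m : ℂ) * g t - JM g (bump l) t = ∫ x in Ioi (0 : ℝ), (g t - g (x * t)) *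
      ((Real.exp (-x) * bump l (Real.exp (-x)) : ℝ) : ℂ) := by
    have e1 : ∀ x : ℝ, (g t - g (x * t)) * ((Real.exp (-x) * bump l (Real.exp (-x)) : ℝ) : ℂ) =
        g t * ((Real.exp (-x) * bump l (Real.exp (-x)) : ℝ) : ℂ) -
        g (x * t) * ((Real.exp (-x) * bump l (Real.exp (-x)) : ℝ) : ℂ) := fun x => by ring
    simp only [e1]
    rw [integral_sub hi (JM_int hm hB (bump_cont l) ht'), integral_const_mul,
      integral_complex_ofReal]
    change _ = g t * (m : ℂ) - _
    rw [mul_comm (m : ℂ)]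
    rfl
  have h4 : ‖(m : ℂ) * g t - JM g (bump l) t‖ ≤ (ε / 4) * m := by
    rw [h3]
    have h5 : (ε / 4) * m = ∫ x in Ioi (0 : ℝ), (ε / 4) *
        (Real.exp (-x) * bump l (Real.exp (-x))) := by
      rw [integral_const_mul]
      rfl
    rw [h5]
    refine norm_integral_le_of_norm_le ((mass_int (bump_cont l)).const_mul _) ?_
    refine Eventually.of_forall fun x => ?_
    have hn : 0 ≤ Real.exp (-x) * bump l (Real.exp (-x)) :=
      mul_nonneg (Real.exp_nonneg _) (bump_nonneg _ _)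
    rw [norm_mul, Complex.norm_real, Real.norm_eq_abs, abs_of_nonneg hn]
    by_cases hb : bump l (Real.exp (-x)) = 0
    · rw [hb]
      simp
    · obtain ⟨h6, h7⟩ := bump_zero hl hb
      refine mul_le_mul_of_nonneg_right ?_ hn
      rw [norm_sub_rev]
      exact h t (x * t) ht (by nlinarith) (by nlinarith)
  have h5 : ‖(m : ℂ) * (g t - S)‖ ≤ m * (ε / 2) := by
    have e : (m : ℂ) * (g t - S) = ((m : ℂ) * g t - JM g (bump l) t) +
        (JM g (bump l) t - S * (m : ℂ)) := by ring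
    rw [e]
    refine (norm_add_le _ _).trans ?_
    nlinarith [h2.le]
  rw [norm_mul, Complex.norm_real, Real.norm_eq_abs, abs_of_pos hm0] at h5
  rw [dist_eq_norm]
  have h6 := le_of_mul_le_mul_left h5 hm0
  linarith

/-- the Abelian theorem -/
theorem abel (hm : Measurable g) (hB : ∀ t, 0 < t → ‖g t‖ ≤ B) (h : Tendsto g atTop (𝓝 S)) :
    Tendsto (LM g) atTop (𝓝 S) := by
  have h1 : ∫ x in Ioi (0 : ℝ), S * (Real.exp (-x) : ℂ) = S := by
    rw [integral_const_mul, int_exp, mul_one]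
  rw [← h1]
  unfold LM
  refine tendsto_integral_filter_of_dominated_convergence (fun x => B * Real.exp (-x)) ?_ ?_ ?_ ?_
  · refine Eventually.of_forall fun t => ?_
    have : Measurable (fun x : ℝ => g (x * t) * (Real.exp (-x) : ℂ)) := by fun_prop
    exact this.aestronglyMeasurable
  · filter_upwards [eventually_gt_atTop 0] with t ht
    filter_upwards [ae_restrict_mem measurableSet_Ioi] with x hx
    have hx' : 0 < x := hx
    rw [norm_mul, Complex.norm_real, Real.norm_eq_abs, Real.abs_exp]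
    exact mul_le_mul_of_nonneg_right (hB _ (by positivity)) (Real.exp_nonneg _)
  · exact (integrableOn_exp_neg_Ioi 0).const_mul _
  · filter_upwards [ae_restrict_mem measurableSet_Ioi] with x hx
    have hx' : 0 < x := hx
    have h2 : Tendsto (fun t : ℝ => x * t) atTop atTop := tendsto_id.const_mul_atTop hx'
    exact (h.comp h2).mul_const _

end

end Pool.Agent.W5h21.TB
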